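import Mathlib

namespace Pool.Agent.H430P

open Finset

/-- If two keys agree before `c` and differ at `c`, the lexicographic comparison is decided at `c`. -/
lemma lex_iff {f g : ℕ → Bool} {c : ℕ} (h : ∀ i < c, f i = g i) (hc : f c ≠ g c) :
    (toLex f < toLex g) ↔ f c = false := by
  constructor
  · rintro ⟨i, hi, hlt⟩
    rcases lt_trichotomy i c with h1 | h1 | h1
    · exact absurd (h i h1) (ne_of_lt hlt)
    · subst h1
      have h2 : f i < g i := hlt
      by_contra h3
      have h4 : f i = true := by simpa using h3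
      rw [h4] at h2
      cases hg : g i <;> rw [hg] at h2 <;> exact absurd h2 (by decide)
    · exact absurd (hi c h1) hc
  · intro hf
    refine ⟨c, fun j hj => h j hj, ?_⟩
    have hg : g c = true := by
      cases hg : g c
      · exact absurd (hf.trans hg.symm) hc
      · rfl
    show f c < g c
    rw [hf, hg]
    decide

/-- Generic counting of orders: independent flips give `2 ^ |A|` distinct relations. -/
lemma count_orders {Y ι I : Type*} [Finite Y] (R : I → (Y → Y → Prop)) (φ : I → ι → Bool)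
    (A : Finset ι) (hA : ∀ κ ∈ A, ∃ x y : Y, ∃ β : Bool, ∀ i, (R i x y ↔ xor β (φ i κ) = false))
    (hpat : ∀ p : ι → Bool, ∃ i, ∀ κ ∈ A, φ i κ = p κ) :
    2 ^ A.card ≤ (Set.range R).ncard := by
  classical
  choose idx hidx using hpat
  let f : Finset ι → (Y → Y → Prop) := fun U => R (idx (fun κ => decide (κ ∈ U)))
  have hinj : Set.InjOn f (A.powerset : Set (Finset ι)) := by
    intro U hU U' hU' hUU
    have hU1 : U ⊆ A := by simpa using hU
    have hU2 : U' ⊆ A := by simpa using hU'
    have key : ∀ κ ∈ A, (κ ∈ U ↔ κ ∈ U') := by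
      intro κ hκ
      obtain ⟨x, y, β, hβ⟩ := hA κ hκ
      have h1 := hβ (idx (fun κ => decide (κ ∈ U)))
      have h2 := hβ (idx (fun κ => decide (κ ∈ U')))
      rw [hidx _ κ hκ] at h1
      rw [hidx _ κ hκ] at h2
      have h3 : R (idx (fun κ => decide (κ ∈ U))) x y ↔ R (idx (fun κ => decide (κ ∈ U'))) x y := by
        have := congrFun (congrFun hUU x) y
        simp only [f] at this
        rw [this]
      rw [h1, h2] at h3
      by_cases ha : κ ∈ U <;> by_cases hb : κ ∈ U' <;> cases β <;> simp_all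
    ext κ
    constructor
    · intro h; exact (key κ (hU1 h)).mp h
    · intro h; exact (key κ (hU2 h)).mpr h
  have h1 : (f '' (A.powerset : Set (Finset ι))).ncard = 2 ^ A.card := by
    rw [hinj.ncard_image, Set.ncard_coe_finset, card_powerset]
  rw [← h1]
  apply Set.ncard_le_ncard _ (Set.toFinite _)
  rintro _ ⟨U, _, rfl⟩
  exact ⟨_, rfl⟩

section

variable {V : Type*} [DecidableEq V] (b : V → ℕ → Bool)

/-- first differing position of `x`, `y` in the coordinate sequence `s`. -/
noncomputable def fd (s : ℕ → ℕ) (x y : V) : ℕ := sInf {i | b x (s i) ≠ b y (s i)}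

lemma fd_spec {s : ℕ → ℕ} {x y : V} (h : ∃ i, b x (s i) ≠ b y (s i)) :
    b x (s (fd b s x y)) ≠ b y (s (fd b s x y)) := Nat.sInf_mem (s := {i | b x (s i) ≠ b y (s i)}) h

lemma fd_before {s : ℕ → ℕ} {x y : V} {i : ℕ} (h : i < fd b s x y) :
    b x (s i) = b y (s i) := by
  have := Nat.notMem_of_lt_sInf h
  simpa using this

lemma fd_eq {s : ℕ → ℕ} {x y : V} {c : ℕ} (h : ∀ i < c, b x (s i) = b y (s i))
    (hc : b x (s c) ≠ b y (s c)) : fd b s x y = c := by
  apply le_antisymm
  · exact Nat.sInf_le hc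
  · by_contra hlt
    push Not at hlt
    exact fd_spec b ⟨c, hc⟩ (h _ hlt)

lemma fd_comm (s : ℕ → ℕ) (x y : V) : fd b s x y = fd b s y x := by
  unfold fd
  congr 1
  ext i
  exact ne_comm

/-- key with flips `φ` that depend on the coordinate and on a context `pc x c`. -/
def keyA (pc : V → ℕ → ℕ) (φ : ℕ × ℕ → Bool) (x : V) : ℕ → Bool :=
  fun c => xor (b x c) (φ (c, pc x c))

/-- key along the coordinate sequence `s` with flips depending on the coordinate only. -/
def keyS (s : ℕ → ℕ) (ψ : ℕ → Bool) (x : V) : ℕ → Bool :=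
  fun i => xor (b x (s i)) (ψ (s i))

lemma keyA_lt (L : ℕ) (pc : V → ℕ → ℕ)
    (hpc : ∀ x y c, pc x c = pc y c ↔ ∀ i, L * (c / L) ≤ i → i < c → b x i = b y i)
    (φ : ℕ × ℕ → Bool) {x y : V} (h : ∃ i, b x i ≠ b y i) :
    (toLex (keyA b pc φ x) < toLex (keyA b pc φ y)) ↔
      xor (b x (fd b id x y)) (φ (fd b id x y, pc x (fd b id x y))) = false := by
  have h1 := fd_spec b (s := id) h
  simp only [id] at h1
  have hp : ∀ c ≤ fd b id x y, pc x c = pc y c := by
    intro c hc
    rw [hpc]
    intro i _ hi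
    have := fd_before b (s := id) (lt_of_lt_of_le hi hc)
    simpa using this
  rw [lex_iff (c := fd b id x y)]
  · rfl
  · intro i hi
    have h2 := fd_before b (s := id) hi
    simp only [id] at h2
    simp only [keyA]
    rw [h2, hp i hi.le]
  · simp only [keyA]
    rw [hp _ le_rfl]
    intro h3
    exact h1 (by simpa using h3)

lemma keyS_lt (s : ℕ → ℕ) (ψ : ℕ → Bool) {x y : V} (h : ∃ i, b x (s i) ≠ b y (s i)) :
    (toLex (keyS b s ψ x) < toLex (keyS b s ψ y)) ↔
      xor (b x (s (fd b s x y))) (ψ (s (fd b s x y))) = false := by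
  have h1 := fd_spec b h
  rw [lex_iff (c := fd b s x y)]
  · rfl
  · intro i hi
    have h2 := fd_before b hi
    simp only [keyS]
    rw [h2]
  · simp only [keyS]
    intro h3
    exact h1 (by simpa using h3)

/-- the set of levels used by pairs of `X` along `s`. -/
noncomputable def levels (s : ℕ → ℕ) (X : Finset V) : Finset ℕ :=
  X.offDiag.image (fun e => s (fd b s e.1 e.2))

lemma card_le_levels (s : ℕ → ℕ) (X : Finset V)
    (hs : ∀ x ∈ X, ∀ y ∈ X, x ≠ y → ∃ i, b x (s i) ≠ b y (s i)) :
    X.card ≤ 2 ^ (levels b s X).card := by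
  rw [← card_powerset]
  apply Finset.card_le_card_of_injOn (fun x => (levels b s X).filter (fun c => b x c = true))
  · intro x _
    exact Finset.mem_coe.mpr (mem_powerset.mpr (filter_subset _ _))
  · intro x hx y hy hxy
    by_contra hne
    have h1 := fd_spec b (hs x hx y hy hne)
    have hm : s (fd b s x y) ∈ levels b s X := by
      unfold levels
      rw [mem_image]
      exact ⟨(x, y), by simp [mem_offDiag]; exact ⟨hx, hy, hne⟩, rfl⟩
    have h2 : s (fd b s x y) ∈ (levels b s X).filter (fun c => b x c = true) ↔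
        s (fd b s x y) ∈ (levels b s X).filter (fun c => b y c = true) := by
      have : (levels b s X).filter (fun c => b x c = true)
        = (levels b s X).filter (fun c => b y c = true) := hxy
      rw [this]
    simp only [mem_filter, hm, true_and] at h2
    cases hbx : b x (s (fd b s x y)) <;> cases hby : b y (s (fd b s x y)) <;> simp_all

/-- If every level of the trie of `X` has a unique node, then there are `≥ |X| - 1` levels. -/
lemma path_case (X : Finset V)
    (hX : ∀ x ∈ X, ∀ y ∈ X, x ≠ y → ∃ i, b x i ≠ b y i)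
    (huniq : ∀ x ∈ X, ∀ y ∈ X, ∀ z ∈ X, ∀ w ∈ X, x ≠ y → z ≠ w → fd b id x y = fd b id z w →
      ∀ i < fd b id x y, b x i = b z i) :
    X.card ≤ (levels b id X).card + 1 := by
  classical
  -- set of levels where x is on the right
  let Rt : V → Finset ℕ := fun x => (X.filter (fun y => y ≠ x ∧ b x (fd b id x y) = true)).image
    (fun y => fd b id x y)
  have hRt : ∀ x c, c ∈ Rt x ↔ ∃ y ∈ X, y ≠ x ∧ b x c = true ∧ fd b id x y = c := by
    intro x c
    simp only [Rt, mem_image, mem_filter]
    constructor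
    · rintro ⟨y, ⟨hy, hne, hb⟩, rfl⟩
      exact ⟨y, hy, hne, hb, rfl⟩
    · rintro ⟨y, hy, hne, hb, rfl⟩
      exact ⟨y, ⟨hy, hne, hb⟩, rfl⟩
  let T : Finset (WithBot ℕ) := insert ⊥ ((levels b id X).image (fun c : ℕ => (c : WithBot ℕ)))
  have hT : T.card ≤ (levels b id X).card + 1 := by
    refine (card_insert_le _ _).trans ?_
    gcongr
    exact card_image_le
  refine le_trans ?_ hT
  apply Finset.card_le_card_of_injOn (fun x => (Rt x).max)
  · intro x hx
    have hx' : x ∈ X := hx
    show (Rt x).max ∈ T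
    cases hm : (Rt x).max with
    | bot => simp [T]
    | coe c =>
      have hc := Finset.mem_of_max hm
      rw [hRt] at hc
      obtain ⟨y, hy, hne, hb, hfd⟩ := hc
      simp only [T, mem_insert, mem_image]
      right
      refine ⟨c, ?_, rfl⟩
      unfold levels
      rw [mem_image]
      exact ⟨(x, y), by simp [mem_offDiag]; exact ⟨hx', hy, fun h => hne h.symm⟩, by simpa using hfd⟩
  · intro x hx y hy hxy
    have hx' : x ∈ X := hx
    have hy' : y ∈ X := hy
    have hxy' : (Rt x).max = (Rt y).max := hxy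
    by_contra hne
    -- the common level is bounded
    have main : ∀ x ∈ X, ∀ y ∈ X, x ≠ y → (Rt x).max = (Rt y).max →
        b x (fd b id x y) = true → False := by
      intro x hx y hy hne hmax hbx
      have hmem : fd b id x y ∈ Rt x := (hRt x _).mpr ⟨y, hy, fun h => hne h.symm, hbx, rfl⟩
      obtain ⟨c, hc⟩ := Finset.max_of_mem hmem
      have hle : fd b id x y ≤ c := Finset.le_max_of_eq hmem hc
      have hcx := Finset.mem_of_max hc
      rw [hmax] at hc
      have hcy := Finset.mem_of_max hc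
      rw [hRt] at hcx hcy
      obtain ⟨u, hu, hux, hbu, hfu⟩ := hcx
      obtain ⟨v, hv, hvy, hbv, hfv⟩ := hcy
      have h1 := huniq x hx u hu y hy v hv (fun h => hux h.symm) (fun h => hvy h.symm)
        (hfu.trans hfv.symm)
      rw [hfu] at h1
      have hdiff := fd_spec b (s := id) (hX x hx y hy hne)
      simp only [id] at hdiff
      rcases lt_or_eq_of_le hle with h2 | h2
      · exact hdiff (h1 _ h2)
      · rw [h2] at hdiff
        exact hdiff (hbu.trans hbv.symm)
    cases hbx : b x (fd b id x y) with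
    | true => exact main x hx' y hy' hne hxy' hbx
    | false =>
      have hdiff := fd_spec b (s := id) (hX x hx' y hy' hne)
      simp only [id] at hdiff
      apply main y hy' x hx' (fun h => hne h.symm) hxy'.symm
      rw [fd_comm]
      cases hby : b y (fd b id x y)
      · exact absurd (hbx.trans hby.symm) hdiff
      · rfl

/-- the coordinate sequence that lists block `B` first and then all coordinates. -/
def sB (L B : ℕ) (i : ℕ) : ℕ := if i < L then B * L + i else i - L

lemma sB_exists (L B : ℕ) {x y : V} (h : ∃ i, b x i ≠ b y i) :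
    ∃ i, b x (sB L B i) ≠ b y (sB L B i) := by
  obtain ⟨i, hi⟩ := h
  refine ⟨i + L, ?_⟩
  have : sB L B (i + L) = i := by simp [sB]
  rwa [this]

/-- the relation induced on `X` by the key `g`. -/
def ordOn (X : Finset V) (g : V → ℕ → Bool) : X → X → Prop :=
  fun x y => toLex (g x.1) < toLex (g y.1)

lemma sep (L : ℕ) (hL : 0 < L) (pc : V → ℕ → ℕ)
    (hpc : ∀ x y c, pc x c = pc y c ↔ ∀ i, L * (c / L) ≤ i → i < c → b x i = b y i)
    (X : Finset V) (c : ℕ) (x y z w : V) (hx : x ∈ X) (hy : y ∈ X) (hz : z ∈ X) (hw : w ∈ X)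
    (hxy : ∀ i < c, b x i = b y i) (hzw : ∀ i < c, b z i = b w i)
    (bx : b x c = false) (by' : b y c = true) (bz : b z c = false) (bw : b w c = true)
    (hpre : pc x c = pc z c) (hdiff : ∃ i < c, b x i ≠ b z i)
    (φ : ℕ × ℕ → Bool) (ψ : ℕ → Bool) :
    ordOn X (keyA b pc φ) ≠ ordOn X (keyS b (sB L (c / L)) ψ) := by
  intro heq
  obtain ⟨i1, hi1, hi1'⟩ := hdiff
  -- first difference of x and z
  set e := fd b id x z with he
  have hex : ∃ i, b x (id i) ≠ b z (id i) := ⟨i1, hi1'⟩
  have he1 : b x e ≠ b z e := fd_spec b hex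
  have hec : e < c := lt_of_le_of_lt (Nat.sInf_le (s := {i | b x (id i) ≠ b z (id i)}) hi1') hi1
  have he2 : ∀ i < e, b x i = b z i := fun i hi => by
    have := fd_before b (s := id) hi
    simpa using this
  have hfd : ∀ u v : V, (∀ i < c, b u i = b x i) → (∀ i < c, b v i = b z i) →
      fd b id u v = e := by
    intro u v hu hv
    apply fd_eq
    · intro i hi
      simp only [id]
      rw [hu i (hi.trans hec), hv i (hi.trans hec), he2 i hi]
    · simp only [id]
      rw [hu e hec, hv e hec]
      exact he1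
  have hpcu : ∀ u : V, (∀ i < c, b u i = b x i) → pc u e = pc x e := by
    intro u hu
    rw [hpc]
    intro i _ hi
    exact hu i (hi.trans hec)
  have hT : ∀ u v : V, (∀ i < c, b u i = b x i) → (∀ i < c, b v i = b z i) →
      ((toLex (keyA b pc φ u) < toLex (keyA b pc φ v)) ↔ xor (b x e) (φ (e, pc x e)) = false) := by
    intro u v hu hv
    have hne : ∃ i, b u i ≠ b v i := ⟨e, by rw [hu e hec, hv e hec]; exact he1⟩
    rw [keyA_lt b L pc hpc φ hne, hfd u v hu hv, hu e hec, hpcu u hu]
  have hyx : ∀ i < c, b y i = b x i := fun i hi => (hxy i hi).symm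
  have hwz : ∀ i < c, b w i = b z i := fun i hi => (hzw i hi).symm
  -- the block-first orders
  set j := c / L with hj
  have hi0 : c % L < L := Nat.mod_lt _ hL
  have hs0 : sB L j (c % L) = c := by
    simp only [sB, hi0, if_true]
    rw [hj, mul_comm]
    exact Nat.div_add_mod c L
  have hsi : ∀ i < c % L, L * (c / L) ≤ sB L j i ∧ sB L j i < c := by
    intro i hi
    have hiL : i < L := hi.trans hi0
    simp only [sB, hiL, if_true]
    have h1 := Nat.div_add_mod c L
    rw [hj, mul_comm (c / L) L]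
    omega
  have hxz : ∀ i, L * (c / L) ≤ i → i < c → b x i = b z i := (hpc x z c).mp hpre
  have hB : ∀ u v : V, (∀ i, L * (c / L) ≤ i → i < c → b u i = b x i) →
      (∀ i, L * (c / L) ≤ i → i < c → b v i = b x i) → b u c = false → b v c = true →
      ((toLex (keyS b (sB L j) ψ u) < toLex (keyS b (sB L j) ψ v)) ↔ ψ c = false) := by
    intro u v hu hv huc hvc
    have hne : ∃ i, b u (sB L j i) ≠ b v (sB L j i) := ⟨c % L, by rw [hs0, huc, hvc]; simp⟩
    have hfd' : fd b (sB L j) u v = c % L := by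
      apply fd_eq
      · intro i hi
        obtain ⟨h1, h2⟩ := hsi i hi
        rw [hu _ h1 h2, hv _ h1 h2]
      · rw [hs0, huc, hvc]; simp
    rw [keyS_lt b _ ψ hne, hfd', hs0, huc]
    simp
  have hcx : ∀ i, L * (c / L) ≤ i → i < c → b x i = b x i := fun _ _ _ => rfl
  have hcy : ∀ i, L * (c / L) ≤ i → i < c → b y i = b x i := fun i _ h => (hxy i h).symm
  have hcz : ∀ i, L * (c / L) ≤ i → i < c → b z i = b x i := fun i h1 h2 => (hxz i h1 h2).symm
  have hcw : ∀ i, L * (c / L) ≤ i → i < c → b w i = b x i := fun i h1 h2 => by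
    rw [hwz i h2, hcz i h1 h2]
  have e1 := hT x w (fun _ _ => rfl) hwz
  have e2 := hT y z hyx (fun _ _ => rfl)
  have e3 := hB x w hcx hcw bx bw
  have e4 := hB z y hcz hcy bz by'
  have f1 : (toLex (keyA b pc φ x) < toLex (keyA b pc φ w)) ↔
      (toLex (keyS b (sB L j) ψ x) < toLex (keyS b (sB L j) ψ w)) := by
    have := congrFun (congrFun heq ⟨x, hx⟩) ⟨w, hw⟩
    simp only [ordOn] at this
    rw [this]
  have f2 : (toLex (keyA b pc φ y) < toLex (keyA b pc φ z)) ↔
      (toLex (keyS b (sB L j) ψ y) < toLex (keyS b (sB L j) ψ z)) := by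
    have := congrFun (congrFun heq ⟨y, hy⟩) ⟨z, hz⟩
    simp only [ordOn] at this
    rw [this]
  have f3 : (toLex (keyA b pc φ z) < toLex (keyA b pc φ y)) ↔
      (toLex (keyS b (sB L j) ψ z) < toLex (keyS b (sB L j) ψ y)) := by
    have := congrFun (congrFun heq ⟨z, hz⟩) ⟨y, hy⟩
    simp only [ordOn] at this
    rw [this]
  -- `A`-order: x<w ↔ y<z ; `B`-order: x<w ↔ z<y
  have g1 : (toLex (keyA b pc φ y) < toLex (keyA b pc φ z)) ↔
      (toLex (keyA b pc φ z) < toLex (keyA b pc φ y)) := by
    rw [e2, ← e1, f1, e3, ← e4, ← f3]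
  have hne : toLex (keyA b pc φ y) ≠ toLex (keyA b pc φ z) := by
    intro h
    have h1 : keyA b pc φ y e = keyA b pc φ z e := congrFun (toLex.injective h) e
    simp only [keyA] at h1
    have h2 : pc z e = pc y e := by
      rw [hpc]
      intro i _ hi
      rw [hyx i (hi.trans hec), he2 i hi]
    rw [h2] at h1
    have h3 : b y e = b z e := by simpa using h1
    rw [hyx e hec] at h3
    exact he1 h3
  rcases lt_or_gt_of_ne hne with h | h
  · exact lt_asymm h (g1.mp h)
  · exact lt_asymm h (g1.mpr h)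

theorem core (L N q : ℕ) (hL : 0 < L) (hN : N = q * L) (pc : V → ℕ → ℕ)
    (hpc : ∀ x y c, pc x c = pc y c ↔ ∀ i, L * (c / L) ≤ i → i < c → b x i = b y i)
    (hpcL : ∀ x c, pc x c < 2 ^ L)
    (hb : ∀ x y, x ≠ y → ∃ i, i < N ∧ b x i ≠ b y i)
    {IA IB : Type*} (φ : IA → ℕ × ℕ → Bool) (ψ : IB → ℕ → Bool) (k r : ℕ)
    (hφ : ∀ A : Finset (ℕ × ℕ), A ⊆ range N ×ˢ range (2 ^ L) → A.card ≤ r + 1 →
      ∀ p : ℕ × ℕ → Bool, ∃ i, ∀ κ ∈ A, φ i κ = p κ)
    (hψ : ∀ A : Finset ℕ, A ⊆ range N → A.card ≤ r + 1 →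
      ∀ p : ℕ → Bool, ∃ i, ∀ c ∈ A, ψ i c = p c)
    (hr : 1 ≤ r) (hk : 2 ^ (r - 1) < k) (hrk : r + 1 < k)
    (X : Finset V) (hX : X.card = k) :
    2 * 2 ^ r ≤ (Set.range (fun i : IA => ordOn X (keyA b pc (φ i))) ∪
      Set.range (fun e : Fin q × IB => ordOn X (keyS b (sB L e.1) (ψ e.2)))).ncard := by
  classical
  have hbe : ∀ x y, x ≠ y → ∃ i, b x i ≠ b y i := fun x y h => by
    obtain ⟨i, _, hi⟩ := hb x y h
    exact ⟨i, hi⟩
  have hfdN : ∀ x y, x ≠ y → fd b id x y < N := by
    intro x y h
    obtain ⟨i, hi, hi'⟩ := hb x y h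
    exact lt_of_le_of_lt (Nat.sInf_le (s := {i | b x (id i) ≠ b y (id i)}) hi') hi
  set E : Finset (ℕ × ℕ) := X.offDiag.image
    (fun e => (fd b id e.1 e.2, pc e.1 (fd b id e.1 e.2))) with hE
  have hEsub : E ⊆ range N ×ˢ range (2 ^ L) := by
    intro κ hκ
    rw [hE, mem_image] at hκ
    obtain ⟨e, he, rfl⟩ := hκ
    rw [mem_offDiag] at he
    rw [mem_product, mem_range, mem_range]
    exact ⟨hfdN _ _ he.2.2, hpcL _ _⟩
  have hfinA : (Set.range (fun i : IA => ordOn X (keyA b pc (φ i)))).Finite := Set.toFinite _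
  have countA : ∀ A ⊆ E, A.card ≤ r + 1 →
      2 ^ A.card ≤ (Set.range (fun i : IA => ordOn X (keyA b pc (φ i)))).ncard := by
    intro A hAE hAr
    apply count_orders (fun i : IA => ordOn X (keyA b pc (φ i))) φ A
    · intro κ hκ
      have hκ' := hAE hκ
      rw [hE, mem_image] at hκ'
      obtain ⟨e, he, rfl⟩ := hκ'
      rw [mem_offDiag] at he
      refine ⟨⟨e.1, he.1⟩, ⟨e.2, he.2.1⟩, b e.1 (fd b id e.1 e.2), ?_⟩
      intro i
      exact keyA_lt b L pc hpc (φ i) (hbe _ _ he.2.2)
    · intro p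
      exact hφ A (hAE.trans hEsub) hAr p
  by_cases hcase : r + 1 ≤ E.card
  · obtain ⟨A, hAE, hA⟩ := Finset.exists_subset_card_eq hcase
    have h1 := countA A hAE hA.le
    rw [hA] at h1
    calc 2 * 2 ^ r = 2 ^ (r + 1) := by ring
      _ ≤ _ := h1
      _ ≤ _ := Set.ncard_le_ncard Set.subset_union_left (Set.toFinite _)
  · push Not at hcase
    have hlevE : levels b id X = E.image Prod.fst := by
      rw [hE, image_image]
      rfl
    have hlev1 : (levels b id X).card ≤ E.card := by
      rw [hlevE]; exact card_image_le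
    have hlevr : ∀ s : ℕ → ℕ, (∀ x ∈ X, ∀ y ∈ X, x ≠ y → ∃ i, b x (s i) ≠ b y (s i)) →
        r ≤ (levels b s X).card := by
      intro s hs
      have h1 := card_le_levels b s X hs
      rw [hX] at h1
      by_contra hlt
      push Not at hlt
      have h2 : (2 : ℕ) ^ (levels b s X).card ≤ 2 ^ (r - 1) :=
        Nat.pow_le_pow_right (by norm_num) (by omega)
      omega
    have hlev2 := hlevr id (fun x _ y _ h => hbe x y h)
    have hEr : E.card = r := by omega
    have hlr : (levels b id X).card = r := by omega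
    have hinj : Set.InjOn Prod.fst (E : Set (ℕ × ℕ)) := by
      apply Finset.injOn_of_card_image_eq
      rw [← hlevE, hlr, hEr]
    -- two nodes on the same level
    have hnot : ¬ (∀ x ∈ X, ∀ y ∈ X, ∀ z ∈ X, ∀ w ∈ X, x ≠ y → z ≠ w →
        fd b id x y = fd b id z w → ∀ i < fd b id x y, b x i = b z i) := by
      intro huniq
      have h1 := path_case b X (fun x _ y _ h => hbe x y h) huniq
      omega
    push Not at hnot
    obtain ⟨x, hx, y, hy, z, hz, w, hw, hxy, hzw, hfd, i1, hi1, hi1'⟩ := hnot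
    have hmem1 : (fd b id x y, pc x (fd b id x y)) ∈ E := by
      rw [hE, mem_image]
      exact ⟨(x, y), mem_offDiag.mpr ⟨hx, hy, hxy⟩, rfl⟩
    have hmem2 : (fd b id z w, pc z (fd b id z w)) ∈ E := by
      rw [hE, mem_image]
      exact ⟨(z, w), mem_offDiag.mpr ⟨hz, hw, hzw⟩, rfl⟩
    have hpre : pc x (fd b id x y) = pc z (fd b id x y) := by
      have h1 := hinj hmem1 hmem2 hfd
      have h2 := congrArg Prod.snd h1
      simp only at h2
      rw [h2, hfd]
    set c := fd b id x y with hc
    have hxyb : ∀ i < c, b x i = b y i := fun i hi => by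
      have := fd_before b (s := id) hi
      simpa using this
    have hzwb : ∀ i < c, b z i = b w i := fun i hi => by
      rw [hfd] at hi
      have := fd_before b (s := id) hi
      simpa using this
    have hxyc : b x c ≠ b y c := by
      have := fd_spec b (s := id) (hbe x y hxy)
      simpa using this
    have hzwc : b z c ≠ b w c := by
      have := fd_spec b (s := id) (hbe z w hzw)
      rw [← hfd] at this
      simpa using this
    have hpcxy : pc x c = pc y c := by
      rw [hpc]; intro i _ hi; exact hxyb i hi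
    have hpczw : pc z c = pc w c := by
      rw [hpc]; intro i _ hi; exact hzwb i hi
    have hcN : c < N := hfdN x y hxy
    have hcq : c / L < q := by
      rw [Nat.div_lt_iff_lt_mul hL]
      omega
    have hsep : ∀ (φ' : ℕ × ℕ → Bool) (ψ' : ℕ → Bool),
        ordOn X (keyA b pc φ') ≠ ordOn X (keyS b (sB L (c / L)) ψ') := by
      intro φ' ψ'
      cases hbx : b x c <;> cases hbz : b z c
      · exact sep b L hL pc hpc X c x y z w hx hy hz hw hxyb hzwb hbx
          (by cases h : b y c <;> simp_all) hbz (by cases h : b w c <;> simp_all)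
          hpre ⟨i1, hi1, hi1'⟩ φ' ψ'
      · exact sep b L hL pc hpc X c x y w z hx hy hw hz hxyb (fun i hi => (hzwb i hi).symm) hbx
          (by cases h : b y c <;> simp_all) (by cases h : b w c <;> simp_all) hbz
          (hpre.trans hpczw) ⟨i1, hi1, by rw [← hzwb i1 hi1]; exact hi1'⟩ φ' ψ'
      · exact sep b L hL pc hpc X c y x z w hy hx hz hw (fun i hi => (hxyb i hi).symm) hzwb
          (by cases h : b y c <;> simp_all) hbx hbz (by cases h : b w c <;> simp_all)
          (hpcxy.symm.trans hpre) ⟨i1, hi1, by rw [← hxyb i1 hi1]; exact hi1'⟩ φ' ψ'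
      · exact sep b L hL pc hpc X c y x w z hy hx hw hz (fun i hi => (hxyb i hi).symm)
          (fun i hi => (hzwb i hi).symm)
          (by cases h : b y c <;> simp_all) hbx (by cases h : b w c <;> simp_all) hbz
          ((hpcxy.symm.trans hpre).trans hpczw)
          ⟨i1, hi1, by rw [← hxyb i1 hi1, ← hzwb i1 hi1]; exact hi1'⟩ φ' ψ'
    -- counting
    have hA2 := countA E Subset.rfl (by omega)
    rw [hEr] at hA2
    have hsBex : ∀ x ∈ X, ∀ y ∈ X, x ≠ y →
        ∃ i, b x (sB L (c / L) i) ≠ b y (sB L (c / L) i) :=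
      fun x _ y _ h => sB_exists b L (c / L) (hbe x y h)
    obtain ⟨A, hAsub, hAr⟩ := Finset.exists_subset_card_eq (hlevr (sB L (c / L)) hsBex)
    have hlevN : levels b (sB L (c / L)) X ⊆ range N := by
      intro l hl
      unfold levels at hl
      rw [mem_image] at hl
      obtain ⟨e, he, rfl⟩ := hl
      rw [mem_offDiag] at he
      rw [mem_range]
      obtain ⟨i, hi, hi'⟩ := hb e.1 e.2 he.2.2
      have h1 : fd b (sB L (c / L)) e.1 e.2 ≤ i + L := by
        apply Nat.sInf_le
        show b e.1 (sB L (c / L) (i + L)) ≠ b e.2 (sB L (c / L) (i + L))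
        have : sB L (c / L) (i + L) = i := by simp [sB]
        rwa [this]
      unfold sB at *
      split_ifs with hlt
      · rw [hN]
        calc c / L * L + fd b (sB L (c / L)) e.1 e.2 < c / L * L + L := by
              apply Nat.add_lt_add_left
              exact hlt
          _ = (c / L + 1) * L := by ring
          _ ≤ q * L := Nat.mul_le_mul_right _ hcq
      · have : fd b (sB L (c / L)) e.1 e.2 - L ≤ i := by
          have h2 : fd b (sB L (c / L)) e.1 e.2 ≤ i + L := h1
          omega
        exact lt_of_le_of_lt this hi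
    have hB2 : 2 ^ A.card ≤
        (Set.range (fun i : IB => ordOn X (keyS b (sB L (c / L)) (ψ i)))).ncard := by
      apply count_orders (fun i : IB => ordOn X (keyS b (sB L (c / L)) (ψ i))) ψ A
      · intro κ hκ
        have hκ' := hAsub hκ
        unfold levels at hκ'
        rw [mem_image] at hκ'
        obtain ⟨e, he, rfl⟩ := hκ'
        rw [mem_offDiag] at he
        refine ⟨⟨e.1, he.1⟩, ⟨e.2, he.2.1⟩, b e.1 (sB L (c / L) (fd b (sB L (c / L)) e.1 e.2)), ?_⟩
        intro i
        exact keyS_lt b _ (ψ i) (sB_exists b L (c / L) (hbe _ _ he.2.2))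
      · intro p
        exact hψ A (hAsub.trans hlevN) (by omega) p
    rw [hAr] at hB2
    have hdisj : Disjoint (Set.range (fun i : IA => ordOn X (keyA b pc (φ i))))
        (Set.range (fun i : IB => ordOn X (keyS b (sB L (c / L)) (ψ i)))) := by
      rw [Set.disjoint_left]
      rintro _ ⟨i, rfl⟩ ⟨i', h⟩
      exact hsep (φ i) (ψ i') h.symm
    have hsubB : Set.range (fun i : IB => ordOn X (keyS b (sB L (c / L)) (ψ i))) ⊆
        Set.range (fun e : Fin q × IB => ordOn X (keyS b (sB L e.1) (ψ e.2))) := by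
      rintro _ ⟨i, rfl⟩
      exact ⟨(⟨c / L, hcq⟩, i), rfl⟩
    calc 2 * 2 ^ r = 2 ^ r + 2 ^ r := by ring
      _ ≤ (Set.range (fun i : IA => ordOn X (keyA b pc (φ i)))).ncard +
          (Set.range (fun i : IB => ordOn X (keyS b (sB L (c / L)) (ψ i)))).ncard :=
        add_le_add hA2 hB2
      _ = (Set.range (fun i : IA => ordOn X (keyA b pc (φ i))) ∪
          Set.range (fun i : IB => ordOn X (keyS b (sB L (c / L)) (ψ i)))).ncard :=
        (Set.ncard_union_eq hdisj (Set.toFinite _) (Set.toFinite _)).symm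
      _ ≤ _ := Set.ncard_le_ncard (Set.union_subset_union_right _ hsubB) (Set.toFinite _)

end

end Pool.Agent.H430P
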