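import Mathlib

namespace Pool.Agent.H430P

open Finset

/-- number of Boolean functions agreeing with `p` on `A`. -/
lemma card_agree {S : Type*} [Fintype S] [DecidableEq S] (A : Finset S) (p : S → Bool) :
    (univ.filter (fun φ : S → Bool => ∀ x ∈ A, φ x = p x)).card
      = 2 ^ (Fintype.card S - A.card) := by
  classical
  have h1 : (univ.filter (fun φ : S → Bool => ∀ x ∈ A, φ x = p x))
      = Fintype.piFinset (fun x => if x ∈ A then ({p x} : Finset Bool) else univ) := by
    ext φ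
    simp only [mem_filter, mem_univ, true_and, Fintype.mem_piFinset]
    constructor
    · intro h x
      by_cases hx : x ∈ A
      · simp [hx, h x hx]
      · simp [hx]
    · intro h x hx
      have := h x
      simpa [hx] using this
  rw [h1, Fintype.card_piFinset]
  have h2 : ∀ x : S, (if x ∈ A then ({p x} : Finset Bool) else univ).card
      = if x ∈ A then 1 else 2 := by
    intro x
    by_cases hx : x ∈ A <;> simp [hx]
  simp only [h2]
  rw [Finset.prod_ite]
  simp only [prod_const_one, one_mul, prod_const]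
  congr 1
  have : (univ.filter (fun x => x ∉ A)) = univ \ A := by
    ext x; simp
  rw [this, Finset.card_sdiff_of_subset (subset_univ A), Finset.card_univ]

lemma real_bound (K a : ℕ) (hK : 1 ≤ K) (ha : 1 ≤ a) :
    (2 : ℝ) ^ (a * K) * (1 - 1 / 2 ^ K) ^ (K * 2 ^ K * a) < 1 := by
  have h0 : (0 : ℝ) < 2 ^ K := by positivity
  have h1 : (1 - 1 / 2 ^ K : ℝ) ≤ Real.exp (-(1 / 2 ^ K)) := by
    have := Real.add_one_le_exp (-(1 / 2 ^ K : ℝ))
    linarith
  have h2 : (0 : ℝ) ≤ 1 - 1 / 2 ^ K := by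
    have : (1 : ℝ) / 2 ^ K ≤ 1 := by
      rw [div_le_one h0]
      exact one_le_pow₀ (by norm_num)
    linarith
  have h3 : (1 - 1 / 2 ^ K : ℝ) ^ (K * 2 ^ K * a) ≤ Real.exp (-(a * K : ℝ)) := by
    calc (1 - 1 / 2 ^ K : ℝ) ^ (K * 2 ^ K * a)
        ≤ (Real.exp (-(1 / 2 ^ K))) ^ (K * 2 ^ K * a) := pow_le_pow_left₀ h2 h1 _
      _ = Real.exp (-(a * K : ℝ)) := by
          rw [← Real.exp_nat_mul]
          congr 1
          push_cast
          field_simp
  have h4 : (2 : ℝ) ^ (a * K) < Real.exp (a * K : ℝ) := by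
    have h5 : (2 : ℝ) < Real.exp 1 := by
      have := Real.exp_one_gt_d9
      linarith
    have h6 : Real.exp (a * K : ℝ) = (Real.exp 1) ^ (a * K) := by
      rw [← Real.exp_nat_mul]
      congr 1
      push_cast
      ring
    rw [h6]
    apply pow_lt_pow_left₀ h5 (by norm_num)
    have : 0 < a * K := by positivity
    omega
  calc (2 : ℝ) ^ (a * K) * (1 - 1 / 2 ^ K) ^ (K * 2 ^ K * a)
      ≤ (2 : ℝ) ^ (a * K) * Real.exp (-(a * K : ℝ)) := by gcongr
    _ < Real.exp (a * K : ℝ) * Real.exp (-(a * K : ℝ)) := by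
        apply mul_lt_mul_of_pos_right h4 (Real.exp_pos _)
    _ = 1 := by rw [← Real.exp_add]; simp

/-- `K`-independent families of logarithmic size. -/
theorem indep {S : Type*} [Fintype S] [DecidableEq S] (K a : ℕ) (hK : 1 ≤ K) (ha : 1 ≤ a)
    (hs : 2 * Fintype.card S ≤ 2 ^ a) (hKS : K ≤ Fintype.card S) :
    ∃ F : Fin (K * 2 ^ K * a) → S → Bool, ∀ A : Finset S, A.card = K →
      ∀ p : S → Bool, ∃ i, ∀ x ∈ A, F i x = p x := by
  classical
  set M := K * 2 ^ K * a with hM
  set s := Fintype.card S with hs'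
  -- the bad set for a constraint
  let Bad : Finset S × Finset S → Finset (Fin M → S → Bool) := fun c =>
    Fintype.piFinset (fun _ => univ.filter (fun φ : S → Bool =>
      ¬ ∀ x ∈ c.1, φ x = decide (x ∈ c.2)))
  let C : Finset (Finset S × Finset S) :=
    (powersetCard K (univ : Finset S)).biUnion (fun A => A.powerset.image (fun U => (A, U)))
  have hCcard : C.card ≤ 2 ^ (a * K) := by
    calc C.card ≤ ∑ A ∈ powersetCard K (univ : Finset S), (A.powerset.image (fun U => (A, U))).card :=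
          card_biUnion_le
      _ ≤ ∑ A ∈ powersetCard K (univ : Finset S), 2 ^ K := by
          apply sum_le_sum
          intro A hA
          refine card_image_le.trans ?_
          rw [card_powerset, (mem_powersetCard.mp hA).2]
      _ = s.choose K * 2 ^ K := by
          rw [sum_const, card_powersetCard, card_univ, smul_eq_mul]
      _ ≤ s ^ K * 2 ^ K := by
          gcongr
          exact Nat.choose_le_pow s K
      _ = (2 * s) ^ K := by rw [mul_pow]; ring
      _ ≤ (2 ^ a) ^ K := by gcongr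
      _ = 2 ^ (a * K) := by rw [← pow_mul]
  have hBad : ∀ c ∈ C, ((Bad c).card : ℝ) ≤ ((2 : ℝ) ^ s) ^ M * (1 - 1 / 2 ^ K) ^ M := by
    intro c hc
    have hcK : c.1.card = K := by
      simp only [C, mem_biUnion, mem_image] at hc
      obtain ⟨A, hA, U, hU, rfl⟩ := hc
      exact (mem_powersetCard.mp hA).2
    have h1 : (Bad c).card = (univ.filter (fun φ : S → Bool =>
        ¬ ∀ x ∈ c.1, φ x = decide (x ∈ c.2))).card ^ M := by
      simp only [Bad]
      rw [Fintype.card_piFinset]
      simp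
    have h2 := card_agree c.1 (fun x => decide (x ∈ c.2))
    have h3 : (univ.filter (fun φ : S → Bool => ∀ x ∈ c.1, φ x = decide (x ∈ c.2))).card
        + (univ.filter (fun φ : S → Bool => ¬ ∀ x ∈ c.1, φ x = decide (x ∈ c.2))).card
        = 2 ^ s := by
      rw [Finset.card_filter_add_card_filter_not]
      simp [hs']
    rw [h2, hcK] at h3
    have h4 : ((univ.filter (fun φ : S → Bool =>
        ¬ ∀ x ∈ c.1, φ x = decide (x ∈ c.2))).card : ℝ) = 2 ^ s * (1 - 1 / 2 ^ K) := by
      have h5 : ((2 : ℝ) ^ (s - K)) + ((univ.filter (fun φ : S → Bool =>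
        ¬ ∀ x ∈ c.1, φ x = decide (x ∈ c.2))).card : ℝ) = 2 ^ s := by
        exact_mod_cast h3
      have h6 : (2 : ℝ) ^ s = 2 ^ (s - K) * 2 ^ K := by
        rw [← pow_add, Nat.sub_add_cancel hKS]
      have h7 : (2 : ℝ) ^ s * (1 - 1 / 2 ^ K) = 2 ^ s - 2 ^ (s - K) := by
        rw [mul_sub, mul_one, h6]
        field_simp
      linarith
    rw [h1]
    push_cast
    rw [h4, mul_pow]
  have hlt : (C.biUnion Bad).card < Fintype.card (Fin M → S → Bool) := by
    have h1 : ((C.biUnion Bad).card : ℝ) < ((2 : ℝ) ^ s) ^ M := by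
      calc ((C.biUnion Bad).card : ℝ) ≤ ∑ c ∈ C, ((Bad c).card : ℝ) := by
            exact_mod_cast card_biUnion_le
        _ ≤ ∑ c ∈ C, ((2 : ℝ) ^ s) ^ M * (1 - 1 / 2 ^ K) ^ M := sum_le_sum hBad
        _ = (C.card : ℝ) * (((2 : ℝ) ^ s) ^ M * (1 - 1 / 2 ^ K) ^ M) := by
            rw [sum_const, nsmul_eq_mul]
        _ ≤ (2 : ℝ) ^ (a * K) * (((2 : ℝ) ^ s) ^ M * (1 - 1 / 2 ^ K) ^ M) := by
            have h2 : (0 : ℝ) ≤ 1 - 1 / 2 ^ K := by
              have : (1 : ℝ) / 2 ^ K ≤ 1 := by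
                rw [div_le_one (by positivity)]
                exact one_le_pow₀ (by norm_num)
              linarith
            have h3 : (C.card : ℝ) ≤ (2 : ℝ) ^ (a * K) := by exact_mod_cast hCcard
            apply mul_le_mul_of_nonneg_right h3
            positivity
        _ = ((2 : ℝ) ^ s) ^ M * ((2 : ℝ) ^ (a * K) * (1 - 1 / 2 ^ K) ^ M) := by ring
        _ < ((2 : ℝ) ^ s) ^ M * 1 := by
            apply mul_lt_mul_of_pos_left (real_bound K a hK ha) (by positivity)
        _ = ((2 : ℝ) ^ s) ^ M := mul_one _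
    have h2 : (Fintype.card (Fin M → S → Bool) : ℝ) = ((2 : ℝ) ^ s) ^ M := by
      simp [hs']
    rw [← h2] at h1
    exact_mod_cast h1
  obtain ⟨F, hF⟩ : ∃ F, F ∉ C.biUnion Bad := by
    by_contra hcon
    push Not at hcon
    have : C.biUnion Bad = univ := by
      ext F; simp [hcon F]
    rw [this, card_univ] at hlt
    exact lt_irrefl _ hlt
  refine ⟨F, ?_⟩
  intro A hA p
  by_contra hcon
  push Not at hcon
  apply hF
  rw [mem_biUnion]
  refine ⟨(A, A.filter (fun x => p x = true)), ?_, ?_⟩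
  · simp only [C, mem_biUnion, mem_image]
    exact ⟨A, mem_powersetCard.mpr ⟨subset_univ _, hA⟩, _, mem_powerset.mpr (filter_subset _ _), rfl⟩
  · simp only [Bad, Fintype.mem_piFinset, mem_filter, mem_univ, true_and]
    intro i hi
    obtain ⟨x, hx, hne⟩ := hcon i
    apply hne
    rw [hi x hx]
    simp [hx]

theorem indepF {α : Type*} [DecidableEq α] (T : Finset α) (K a : ℕ) (hK : 1 ≤ K) (ha : 1 ≤ a)
    (hs : 2 * T.card ≤ 2 ^ a) (hKS : K ≤ T.card) :
    ∃ F : Fin (K * 2 ^ K * a) → α → Bool, ∀ A : Finset α, A ⊆ T → A.card ≤ K →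
      ∀ p : α → Bool, ∃ i, ∀ x ∈ A, F i x = p x := by
  classical
  obtain ⟨F, hF⟩ := indep (S := {x // x ∈ T}) K a hK ha (by simpa using hs) (by simpa using hKS)
  refine ⟨fun i x => if h : x ∈ T then F i ⟨x, h⟩ else false, ?_⟩
  intro A hAT hAK p
  obtain ⟨A', hAA', hA'T, hA'K⟩ := Finset.exists_subsuperset_card_eq hAT hAK hKS
  obtain ⟨i, hi⟩ := hF (A'.subtype (fun x => x ∈ T)) (by
    rw [Finset.card_subtype, Finset.filter_true_of_mem (fun x hx => hA'T hx), hA'K]) (fun x => p x)
  refine ⟨i, fun x hx => ?_⟩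
  have hxT := hAT hx
  simp only [hxT, dite_true]
  exact hi ⟨x, hxT⟩ (by simp [hAA' hx])

end Pool.Agent.H430P
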