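import Mathlib
import Pool.Agent.H430P.Indep
import Pool.Agent.H430P.Core

namespace Pool.Agent.H430P

open Finset

lemma exists_perm {n : ℕ} {α : Type*} [LinearOrder α] (g : Fin n → α) (hg : Function.Injective g) :
    ∃ π : Equiv.Perm (Fin n), ∀ x y, π x < π y ↔ g x < g y := by
  have hmono : StrictMono (g ∘ Tuple.sort g) :=
    (Tuple.monotone_sort g).strictMono_of_injective (hg.comp (Tuple.sort g).injective)
  refine ⟨(Tuple.sort g).symm, ?_⟩
  intro x y
  have h := hmono.lt_iff_lt (a := (Tuple.sort g).symm x) (b := (Tuple.sort g).symm y)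
  simp only [Function.comp_apply, Equiv.apply_symm_apply] at h
  exact h.symm

section
variable {V : Type*} [DecidableEq V] (b : V → ℕ → Bool)

lemma keyA_inj (L : ℕ) (pc : V → ℕ → ℕ)
    (hpc : ∀ x y c, pc x c = pc y c ↔ ∀ i, L * (c / L) ≤ i → i < c → b x i = b y i)
    (hb : ∀ x y, x ≠ y → ∃ i, b x i ≠ b y i) (φ : ℕ × ℕ → Bool) :
    Function.Injective (fun x => toLex (keyA b pc φ x)) := by
  intro x y hxy
  by_contra hne
  have hex := hb x y hne
  have h1 := fd_spec b (s := id) hex
  simp only [id] at h1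
  have hxy' : keyA b pc φ x = keyA b pc φ y := toLex.injective hxy
  have h2 := congrFun hxy' (fd b id x y)
  have h3 : pc x (fd b id x y) = pc y (fd b id x y) := by
    rw [hpc]
    intro i _ hi
    have := fd_before b (s := id) hi
    simpa using this
  simp only [keyA] at h2
  rw [h3] at h2
  exact h1 (by simpa using h2)

lemma keyS_inj (s : ℕ → ℕ) (hb : ∀ x y, x ≠ y → ∃ i, b x (s i) ≠ b y (s i)) (ψ : ℕ → Bool) :
    Function.Injective (fun x => toLex (keyS b s ψ x)) := by
  intro x y hxy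
  by_contra hne
  have hex := hb x y hne
  have h1 := fd_spec b hex
  have hxy' : keyS b s ψ x = keyS b s ψ y := toLex.injective hxy
  have h2 := congrFun hxy' (fd b s x y)
  simp only [keyS] at h2
  exact h1 (by simpa using h2)

end

/-- the code of the in-block prefix. -/
def pcode (L : ℕ) (x c : ℕ) : ℕ := (x / 2 ^ (L * (c / L))) % 2 ^ (c % L)

lemma pcode_iff (L : ℕ) (x y c : ℕ) :
    pcode L x c = pcode L y c ↔
      ∀ i, L * (c / L) ≤ i → i < c → x.testBit i = y.testBit i := by
  have hc := Nat.div_add_mod c L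
  unfold pcode
  constructor
  · intro h i hi hic
    obtain ⟨j, rfl⟩ := Nat.exists_eq_add_of_le hi
    have hj : j < c % L := by omega
    have h1 := congrArg (fun t => Nat.testBit t j) h
    simp only [Nat.testBit_mod_two_pow, Nat.testBit_div_two_pow, hj, decide_true,
      Bool.true_and] at h1
    rw [add_comm (L * (c / L)) j]
    exact h1
  · intro h
    apply Nat.eq_of_testBit_eq
    intro j
    simp only [Nat.testBit_mod_two_pow, Nat.testBit_div_two_pow]
    by_cases hj : j < c % L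
    · have := h (L * (c / L) + j) (by omega) (by omega)
      rw [add_comm (L * (c / L)) j] at this
      simp [hj, this]
    · simp [hj]

lemma pcode_lt (L : ℕ) (hL : 0 < L) (x c : ℕ) : pcode L x c < 2 ^ L := by
  unfold pcode
  calc (x / 2 ^ (L * (c / L))) % 2 ^ (c % L) < 2 ^ (c % L) := Nat.mod_lt _ (by positivity)
    _ ≤ 2 ^ L := Nat.pow_le_pow_right (by norm_num) (Nat.mod_lt _ hL).le

theorem family_nat (k n r m a L q : ℕ) (hr : r = Nat.clog 2 k) (hk : 4 ≤ k) (hkn : k ≤ n)
    (hm : m = Nat.clog 2 n) (hL : 0 < L) (hqL : m < q * L) (ha : 2 * (q * L) ≤ 2 ^ a) (ha1 : 1 ≤ a) :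
    ∃ P : Finset (Equiv.Perm (Fin n)),
      P.card ≤ (r + 1) * 2 ^ (r + 1) * (a + L) + q * ((r + 1) * 2 ^ (r + 1) * a) ∧
      ∀ X : Finset (Fin n), X.card = k →
        2 * 2 ^ r ≤ ((fun ρ : Equiv.Perm (Fin n) => (fun x y : X => ρ x < ρ y)) ''
          (P : Set (Equiv.Perm (Fin n)))).ncard := by
  classical
  have hrm : r ≤ m := by
    rw [hr, hm]
    exact Nat.clog_mono_right 2 hkn
  obtain ⟨F2, hF2⟩ := indepF (range (q * L)) (r + 1) a (by omega) ha1 (by simpa using ha)
    (by rw [card_range]; omega)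
  obtain ⟨F1, hF1⟩ := indepF (range (q * L) ×ˢ range (2 ^ L)) (r + 1) (a + L) (by omega) (by omega)
    (by
      rw [card_product, card_range, card_range, pow_add]
      calc 2 * (q * L * 2 ^ L) = (2 * (q * L)) * 2 ^ L := by ring
        _ ≤ 2 ^ a * 2 ^ L := Nat.mul_le_mul_right _ ha)
    (by
      rw [card_product, card_range, card_range]
      calc r + 1 ≤ q * L := by omega
        _ = q * L * 1 := (mul_one _).symm
        _ ≤ q * L * 2 ^ L := Nat.mul_le_mul_left _ Nat.one_le_two_pow)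
  let b : Fin n → ℕ → Bool := fun x i => (x : ℕ).testBit i
  let pc : Fin n → ℕ → ℕ := fun x c => pcode L x c
  have hpc : ∀ x y c, pc x c = pc y c ↔ ∀ i, L * (c / L) ≤ i → i < c → b x i = b y i :=
    fun x y c => pcode_iff L x y c
  have hpcL : ∀ x c, pc x c < 2 ^ L := fun x c => pcode_lt L hL x c
  have hbig : ∀ (x : Fin n) i, q * L ≤ i → (x : ℕ).testBit i = false := by
    intro x i hi
    apply Nat.testBit_lt_two_pow
    calc (x : ℕ) < n := x.2
      _ ≤ 2 ^ m := by rw [hm]; exact Nat.le_pow_clog (by norm_num) n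
      _ ≤ 2 ^ i := Nat.pow_le_pow_right (by norm_num) (by omega)
  have hb : ∀ x y : Fin n, x ≠ y → ∃ i, i < q * L ∧ b x i ≠ b y i := by
    intro x y hxy
    by_contra hcon
    push Not at hcon
    apply hxy
    apply Fin.ext
    apply Nat.eq_of_testBit_eq
    intro i
    by_cases hi : i < q * L
    · exact hcon i hi
    · rw [hbig x i (by omega), hbig y i (by omega)]
  have hbe : ∀ x y : Fin n, x ≠ y → ∃ i, b x i ≠ b y i := fun x y h => by
    obtain ⟨i, _, hi⟩ := hb x y h
    exact ⟨i, hi⟩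
  -- the permutations
  have hA : ∀ i : Fin ((r + 1) * 2 ^ (r + 1) * (a + L)), ∃ π : Equiv.Perm (Fin n),
      ∀ x y, π x < π y ↔ toLex (keyA b pc (F1 i) x) < toLex (keyA b pc (F1 i) y) :=
    fun i => exists_perm _ (keyA_inj b L pc hpc hbe (F1 i))
  have hB : ∀ e : Fin q × Fin ((r + 1) * 2 ^ (r + 1) * a), ∃ π : Equiv.Perm (Fin n),
      ∀ x y, π x < π y ↔
        toLex (keyS b (sB L e.1) (F2 e.2) x) < toLex (keyS b (sB L e.1) (F2 e.2) y) :=
    fun e => exists_perm _ (keyS_inj b _ (fun x y h => sB_exists b L e.1 (hbe x y h)) (F2 e.2))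
  choose πA hπA using hA
  choose πB hπB using hB
  refine ⟨univ.image πA ∪ univ.image πB, ?_, ?_⟩
  · calc (univ.image πA ∪ univ.image πB).card ≤ (univ.image πA).card + (univ.image πB).card :=
          card_union_le _ _
      _ ≤ (univ : Finset (Fin ((r + 1) * 2 ^ (r + 1) * (a + L)))).card +
          (univ : Finset (Fin q × Fin ((r + 1) * 2 ^ (r + 1) * a))).card :=
          add_le_add card_image_le card_image_le
      _ = _ := by simp
  · intro X hX
    have hk2 : 2 ^ (r - 1) < k := by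
      rw [hr]
      exact Nat.pow_pred_clog_lt_self (by norm_num) (by omega)
    have hr1 : 1 ≤ r := by
      rw [hr]
      exact Nat.clog_pos (by norm_num) (by omega)
    have hrk : r + 1 < k := by
      rw [hr]
      have h1 : Nat.clog 2 k ≤ k - 2 := by
        apply Nat.clog_le_of_le_pow
        have : ∀ j, 2 ≤ j → j + 2 ≤ 2 ^ j := by
          intro j hj
          induction j, hj using Nat.le_induction with
          | base => norm_num
          | succ j hj ih => rw [pow_succ]; omega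
        have := this (k - 2) (by omega)
        omega
      omega
    have hcore := core b L (q * L) q hL rfl pc hpc hpcL hb F1 F2 k r hF1 hF2 hr1 hk2 hrk X hX
    refine hcore.trans (Set.ncard_le_ncard ?_ (Set.toFinite _))
    rintro R (⟨i, rfl⟩ | ⟨e, rfl⟩)
    · refine ⟨πA i, by simp, ?_⟩
      funext x y
      exact propext (hπA i x y)
    · refine ⟨πB e, by simp, ?_⟩
      funext x y
      exact propext (hπB e x y)

lemma numeric (m a0 L q : ℕ) (hm : 1 ≤ m) (ha0 : a0 = Nat.log 2 m + 1)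
    (hL : L = Nat.sqrt (m * a0) + 1) (hq : q = m / L + 1) :
    (((a0 + 3 + L) + q * (a0 + 3) : ℕ) : ℝ) ≤ 14 * √((m : ℝ) * a0) := by
  set S := √((m : ℝ) * a0) with hS
  have ha0m : a0 ≤ m := by
    rw [ha0]
    have := Nat.log_lt_self 2 (x := m) (by omega)
    omega
  have ha0m' : (a0 : ℝ) ≤ m := by exact_mod_cast ha0m
  have ha01 : (1 : ℝ) ≤ a0 := by
    have : 1 ≤ a0 := by omega
    exact_mod_cast this
  have hm1 : (1 : ℝ) ≤ m := by exact_mod_cast hm
  have hSa : (a0 : ℝ) ≤ S := by
    rw [hS]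
    apply Real.le_sqrt_of_sq_le
    nlinarith
  have hS1 : 1 ≤ S := ha01.trans hSa
  have hSS : S * S = m * a0 := by
    rw [hS]
    exact Real.mul_self_sqrt (by positivity)
  have hL1 : (L : ℝ) ≤ S + 1 := by
    rw [hL]
    push_cast
    have := Real.nat_sqrt_le_real_sqrt (a := m * a0)
    push_cast at this
    linarith
  have hL2 : S ≤ L := by
    rw [hL]
    have := Real.real_sqrt_le_nat_sqrt_succ (a := m * a0)
    push_cast at this ⊢
    linarith
  have hq1 : (q : ℝ) ≤ m / S + 1 := by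
    rw [hq]
    push_cast
    have h1 : ((m / L : ℕ) : ℝ) ≤ (m : ℝ) / L := Nat.cast_div_le
    have h2 : (m : ℝ) / L ≤ m / S := by
      apply div_le_div_of_nonneg_left (by positivity) (by linarith) hL2
    linarith
  have h3 : (q : ℝ) * (a0 + 3) ≤ 8 * S := by
    calc (q : ℝ) * (a0 + 3) ≤ (m / S + 1) * (4 * a0) := by
          apply mul_le_mul hq1 (by linarith) (by positivity) (by positivity)
      _ = 4 * ((m * a0) / S + a0) := by ring
      _ = 4 * (S + a0) := by
          rw [← hSS]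
          field_simp
      _ ≤ 8 * S := by linarith
  push_cast
  nlinarith

theorem family_real (k n : ℕ) (hk : 4 ≤ k) (hn : 16 ≤ n) :
    ∃ P : Finset (Equiv.Perm (Fin n)),
      (P.card : ℝ) ≤ (42 * ((Nat.clog 2 k + 1) * 2 ^ (Nat.clog 2 k + 1)) : ℝ) *
        √(Real.log n * Real.log (Real.log n)) ∧
      ∀ X : Finset (Fin n), X.card = k →
        2 * 2 ^ (Nat.clog 2 k) ≤ ((fun ρ : Equiv.Perm (Fin n) => (fun x y : X => ρ x < ρ y)) ''
          (P : Set (Equiv.Perm (Fin n)))).ncard := by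
  by_cases hkn : n < k
  · refine ⟨∅, ?_, ?_⟩
    · simp only [card_empty, Nat.cast_zero]
      positivity
    · intro X hX
      have h1 := Finset.card_le_univ X
      rw [Fintype.card_fin] at h1
      omega
  push Not at hkn
  set m := Nat.clog 2 n with hm
  have hm1 : 1 ≤ m := Nat.clog_pos (by norm_num) (by omega)
  set a0 := Nat.log 2 m + 1 with ha0
  set L := Nat.sqrt (m * a0) + 1 with hL
  set q := m / L + 1 with hq
  have hLpos : 0 < L := by omega
  have hqL : m < q * L := by
    rw [hq, add_mul, one_mul]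
    have h1 := Nat.div_add_mod m L
    have h2 := Nat.mod_lt m hLpos
    rw [mul_comm L] at h1
    omega
  have ha0m : a0 ≤ m := by
    have := Nat.log_lt_self 2 (x := m) (by omega)
    omega
  have hma0 : m < 2 ^ a0 := Nat.lt_pow_succ_log_self (by norm_num) m
  have hLm : L ≤ m + 1 := by
    have h1 : Nat.sqrt (m * a0) ≤ m := by
      calc Nat.sqrt (m * a0) ≤ Nat.sqrt (m * m) := Nat.sqrt_le_sqrt (Nat.mul_le_mul_left _ ha0m)
        _ = m := Nat.sqrt_eq m
    omega
  have ha : 2 * (q * L) ≤ 2 ^ (a0 + 3) := by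
    have h1 : q * L ≤ m + L := by
      rw [hq, add_mul, one_mul]
      have := Nat.div_mul_le_self m L
      omega
    have h2 : (2 : ℕ) ^ (a0 + 3) = 8 * 2 ^ a0 := by ring
    rw [h2]
    omega
  obtain ⟨P, hP, hPX⟩ := family_nat k n (Nat.clog 2 k) m (a0 + 3) L q rfl hk hkn hm hLpos hqL ha
    (by omega)
  refine ⟨P, ?_, hPX⟩
  set K := Nat.clog 2 k + 1 with hK
  have hnum := numeric m a0 L q hm1 ha0 hL hq
  have hP' : (P.card : ℝ) ≤ ((K : ℝ) * 2 ^ K) * (14 * √((m : ℝ) * a0)) := by
    calc (P.card : ℝ) ≤ ((K * 2 ^ K * (a0 + 3 + L) + q * (K * 2 ^ K * (a0 + 3)) : ℕ) : ℝ) := by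
          exact_mod_cast hP
      _ = ((K : ℝ) * 2 ^ K) * (((a0 + 3 + L) + q * (a0 + 3) : ℕ) : ℝ) := by
          push_cast; ring
      _ ≤ _ := by gcongr
  -- logarithms
  have hlog2 : (0.69 : ℝ) < Real.log 2 := by
    have := Real.log_two_gt_d9; linarith
  have hlog2' : Real.log 2 < (0.7 : ℝ) := by
    have := Real.log_two_lt_d9; linarith
  have hn' : (16 : ℝ) ≤ n := by exact_mod_cast hn
  have hn0 : (0 : ℝ) < n := by linarith
  have hlog16 : Real.log 16 = 4 * Real.log 2 := by
    rw [show (16 : ℝ) = 2 ^ (4 : ℕ) by norm_num, Real.log_pow]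
    norm_num
  have hln : 4 * Real.log 2 ≤ Real.log n := by
    rw [← hlog16]
    exact Real.log_le_log (by norm_num) hn'
  have hln0 : 0 < Real.log n := by linarith
  have hlln : 1 ≤ Real.log (Real.log n) := by
    rw [Real.le_log_iff_exp_le hln0]
    have h1 := Real.exp_one_lt_d9
    have h2 := Real.log_two_gt_d9
    linarith
  have hmlog : (m : ℝ) ≤ 2 * Real.log n := by
    have h1 : 2 ^ (m - 1) < n := by
      rw [hm]
      exact Nat.pow_pred_clog_lt_self (by norm_num) (by omega)
    have h2 : ((2 : ℝ) ^ (m - 1)) < n := by exact_mod_cast h1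
    have h3 : ((m - 1 : ℕ) : ℝ) * Real.log 2 < Real.log n := by
      rw [← Real.log_pow]
      exact Real.log_lt_log (by positivity) h2
    have h4 : ((m - 1 : ℕ) : ℝ) = m - 1 := by
      rw [Nat.cast_sub hm1]; simp
    rw [h4] at h3
    nlinarith
  have ha0log : (a0 : ℝ) ≤ 4 * Real.log (Real.log n) := by
    have h1 : 2 ^ (Nat.log 2 m) ≤ m := Nat.pow_log_le_self 2 (by omega)
    have h2 : ((2 : ℝ) ^ (Nat.log 2 m)) ≤ 2 * Real.log n := by
      have : ((2 : ℝ) ^ (Nat.log 2 m)) ≤ m := by exact_mod_cast h1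
      linarith
    have h3 : ((Nat.log 2 m : ℕ) : ℝ) * Real.log 2 ≤ Real.log 2 + Real.log (Real.log n) := by
      rw [← Real.log_pow, ← Real.log_mul (by norm_num) (by linarith)]
      exact Real.log_le_log (by positivity) h2
    have h4 : (a0 : ℝ) = (Nat.log 2 m : ℕ) + 1 := by rw [ha0]; push_cast; rfl
    rw [h4]
    nlinarith
  have hsq : √((m : ℝ) * a0) ≤ 3 * √(Real.log n * Real.log (Real.log n)) := by
    have h9 : (3 : ℝ) = √9 := by
      rw [show (9 : ℝ) = 3 ^ 2 by norm_num]
      rw [Real.sqrt_sq (by norm_num)]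
    rw [h9, ← Real.sqrt_mul (by norm_num)]
    apply Real.sqrt_le_sqrt
    calc (m : ℝ) * a0 ≤ (2 * Real.log n) * (4 * Real.log (Real.log n)) :=
          mul_le_mul hmlog ha0log (by positivity) (by positivity)
      _ ≤ 9 * (Real.log n * Real.log (Real.log n)) := by nlinarith [mul_pos hln0 (by linarith : (0:ℝ) < Real.log (Real.log n))]
  calc (P.card : ℝ) ≤ ((K : ℝ) * 2 ^ K) * (14 * √((m : ℝ) * a0)) := hP'
    _ ≤ ((K : ℝ) * 2 ^ K) * (14 * (3 * √(Real.log n * Real.log (Real.log n)))) := by gcongr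
    _ = _ := by
      rw [hK]; push_cast; ring

end Pool.Agent.H430P
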