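import Mathlib
import Pool.Agent.H430P.Core

namespace Pool.Agent.H430P

open Finset

section

variable {V : Type*} [DecidableEq V] (b : V → ℕ → Bool)

/-- classes of pairs of `X`. -/
noncomputable def classes (pc : V → ℕ → ℕ) (X : Finset V) : Finset (ℕ × ℕ) :=
  X.offDiag.image (fun e => (fd b id e.1 e.2, pc e.1 (fd b id e.1 e.2)))

lemma mem_classes {pc : V → ℕ → ℕ} {X : Finset V} {x y : V} (hx : x ∈ X) (hy : y ∈ X)
    (h : x ≠ y) : (fd b id x y, pc x (fd b id x y)) ∈ classes b pc X := by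
  unfold classes
  rw [mem_image]
  exact ⟨(x, y), mem_offDiag.mpr ⟨hx, hy, h⟩, rfl⟩

/-- If every class of `X` has a unique node, then there are `≥ |X| - 1` classes. -/
lemma path_case' (pc : V → ℕ → ℕ) (X : Finset V)
    (hX : ∀ x ∈ X, ∀ y ∈ X, x ≠ y → ∃ i, b x i ≠ b y i)
    (huniq : ∀ x ∈ X, ∀ y ∈ X, ∀ z ∈ X, ∀ w ∈ X, x ≠ y → z ≠ w → fd b id x y = fd b id z w →
      pc x (fd b id x y) = pc z (fd b id x y) → ∀ i < fd b id x y, b x i = b z i) :
    X.card ≤ (classes b pc X).card + 1 := by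
  classical
  let Rt : V → Finset ℕ := fun x => (X.filter (fun y => y ≠ x ∧ b x (fd b id x y) = true)).image
    (fun y => fd b id x y)
  have hRt : ∀ x c, c ∈ Rt x ↔ ∃ y ∈ X, y ≠ x ∧ b x c = true ∧ fd b id x y = c := by
    intro x c
    simp only [Rt, mem_image, mem_filter]
    constructor
    · rintro ⟨y, ⟨hy, hne, hb⟩, rfl⟩
      exact ⟨y, hy, hne, hb, rfl⟩
    · rintro ⟨y, hy, hne, hb, rfl⟩
      exact ⟨y, ⟨hy, hne, hb⟩, rfl⟩
  let T : Finset (WithBot (ℕ × ℕ)) :=
    insert ⊥ ((classes b pc X).image (fun c : ℕ × ℕ => (c : WithBot (ℕ × ℕ))))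
  have hT : T.card ≤ (classes b pc X).card + 1 := by
    refine (card_insert_le _ _).trans ?_
    gcongr
    exact card_image_le
  let G : V → WithBot (ℕ × ℕ) := fun x => WithBot.map (fun c => (c, pc x c)) (Rt x).max
  refine le_trans ?_ hT
  apply Finset.card_le_card_of_injOn G
  · intro x hx
    have hx' : x ∈ X := hx
    show G x ∈ T
    cases hm : (Rt x).max with
    | bot => simp [T, G, hm]
    | coe c =>
      have hc := Finset.mem_of_max hm
      rw [hRt] at hc
      obtain ⟨y, hy, hne, hb, hfd⟩ := hc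
      simp only [T, G, hm, mem_insert, mem_image]
      right
      refine ⟨(c, pc x c), ?_, rfl⟩
      rw [← hfd]
      exact mem_classes b hx' hy (fun h => hne h.symm)
  · intro x hx y hy hxy
    have hx' : x ∈ X := hx
    have hy' : y ∈ X := hy
    have hGG : G x = G y := hxy
    have hmaxeq : (Rt x).max = (Rt y).max := by
      simp only [G] at hGG
      cases h1 : (Rt x).max with
      | bot =>
        cases h2 : (Rt y).max with
        | bot => rfl
        | coe c => rw [h1, h2] at hGG; simp at hGG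
      | coe c =>
        cases h2 : (Rt y).max with
        | bot => rw [h1, h2] at hGG; simp at hGG
        | coe c' =>
          rw [h1, h2] at hGG
          simp only [WithBot.map_coe, WithBot.coe_inj, Prod.mk.injEq] at hGG
          rw [hGG.1]
    have hpceq : ∀ c : ℕ, (Rt x).max = WithBot.some c → pc x c = pc y c := by
      intro c hc
      have hc2 : (Rt y).max = WithBot.some c := hmaxeq ▸ hc
      simp only [G] at hGG
      rw [hc, hc2] at hGG
      have h3 : WithBot.some (c, pc x c) = WithBot.some (c, pc y c) := hGG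
      exact (Prod.mk.inj (WithBot.coe_injective h3)).2
    by_contra hne
    have main : ∀ x ∈ X, ∀ y ∈ X, x ≠ y → (Rt x).max = (Rt y).max →
        (∀ c : ℕ, (Rt x).max = WithBot.some c → pc x c = pc y c) →
        b x (fd b id x y) = true → False := by
      intro x hx y hy hne hmax hpc hbx
      have hmem : fd b id x y ∈ Rt x := (hRt x _).mpr ⟨y, hy, fun h => hne h.symm, hbx, rfl⟩
      obtain ⟨c, hc⟩ := Finset.max_of_mem hmem
      have hle : fd b id x y ≤ c := Finset.le_max_of_eq hmem hc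
      have hcx := Finset.mem_of_max hc
      have hpcc := hpc c hc
      rw [hmax] at hc
      have hcy := Finset.mem_of_max hc
      rw [hRt] at hcx hcy
      obtain ⟨u, hu, hux, hbu, hfu⟩ := hcx
      obtain ⟨v, hv, hvy, hbv, hfv⟩ := hcy
      have h1 := huniq x hx u hu y hy v hv (fun h => hux h.symm) (fun h => hvy h.symm)
        (hfu.trans hfv.symm) (by rw [hfu]; exact hpcc)
      rw [hfu] at h1
      have hdiff := fd_spec b (s := id) (hX x hx y hy hne)
      simp only [id] at hdiff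
      rcases lt_or_eq_of_le hle with h2 | h2
      · exact hdiff (h1 _ h2)
      · rw [h2] at hdiff
        exact hdiff (hbu.trans hbv.symm)
    cases hbx : b x (fd b id x y) with
    | true => exact main x hx' y hy' hne hmaxeq hpceq hbx
    | false =>
      have hdiff := fd_spec b (s := id) (hX x hx' y hy' hne)
      simp only [id] at hdiff
      apply main y hy' x hx' (fun h => hne h.symm) hmaxeq.symm
      · intro c hc
        exact (hpceq c (hmaxeq ▸ hc)).symm
      rw [fd_comm]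
      cases hby : b y (fd b id x y)
      · exact absurd (hbx.trans hby.symm) hdiff
      · rfl

/-- level `c` carries two separated nodes of the same class. -/
def Coinc (pc : V → ℕ → ℕ) (X : Finset V) (c : ℕ) : Prop :=
  ∃ x ∈ X, ∃ y ∈ X, ∃ z ∈ X, ∃ w ∈ X, x ≠ y ∧ z ≠ w ∧ fd b id x y = c ∧ fd b id z w = c ∧
    pc x c = pc z c ∧ ∃ i < c, b x i ≠ b z i

/-- The product bound. -/
lemma product_bound (L : ℕ) (pc : V → ℕ → ℕ)
    (hpc : ∀ x y c, pc x c = pc y c ↔ ∀ i, L * (c / L) ≤ i → i < c → b x i = b y i)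
    (X : Finset V) (hX : ∀ x ∈ X, ∀ y ∈ X, x ≠ y → ∃ i, b x i ≠ b y i)
    (J : Finset ℕ) (hJ : ∀ c, Coinc b pc X c → c / L ∈ J) :
    X.card ≤ (((classes b pc X).filter (fun κ => κ.1 / L ∉ J)).card + 1) *
      ∏ B ∈ J, (((classes b pc X).filter (fun κ => κ.1 / L = B)).card + 1) := by
  classical
  set E := classes b pc X with hE
  let code : ℕ → V → Finset (ℕ × ℕ) := fun B x =>
    E.filter (fun κ => κ.1 / L = B ∧ pc x κ.1 = κ.2 ∧ b x κ.1 = true)
  let G : ℕ → V → WithBot (ℕ × ℕ) := fun B x =>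
    WithBot.map (fun c => (c, pc x c)) ((code B x).image Prod.fst).max
  let T : ℕ → Finset (WithBot (ℕ × ℕ)) := fun B =>
    insert ⊥ ((E.filter (fun κ => κ.1 / L = B)).image (fun c : ℕ × ℕ => (c : WithBot (ℕ × ℕ))))
  have hT : ∀ B, (T B).card ≤ (E.filter (fun κ => κ.1 / L = B)).card + 1 := by
    intro B
    refine (card_insert_le _ _).trans ?_
    gcongr
    exact card_image_le
  have hGT : ∀ B x, G B x ∈ T B := by
    intro B x
    cases hm : ((code B x).image Prod.fst).max with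
    | bot => simp [T, G, hm]
    | coe c =>
      have hc := Finset.mem_of_max hm
      rw [mem_image] at hc
      obtain ⟨κ, hκ, hκc⟩ := hc
      simp only [code, mem_filter] at hκ
      simp only [T, G, hm, mem_insert, mem_image, mem_filter]
      right
      refine ⟨κ, ⟨hκ.1, hκ.2.1⟩, ?_⟩
      rw [← hκc]
      show WithBot.some κ = WithBot.some (κ.1, pc x κ.1)
      rw [hκ.2.2.1]
  have hGcode : ∀ B x y, G B x = G B y → ∀ κ ∈ E, κ.1 / L = B → pc x κ.1 = κ.2 → pc y κ.1 = κ.2 →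
      b x κ.1 = true → b y κ.1 = true := by
    intro B x y hG κ hκE hκB hκx hκy hbx
    have hmem : κ.1 ∈ (code B x).image Prod.fst :=
      mem_image.mpr ⟨κ, by simp only [code, mem_filter]; exact ⟨hκE, hκB, hκx, hbx⟩, rfl⟩
    obtain ⟨c, hc⟩ := Finset.max_of_mem hmem
    have hle : κ.1 ≤ c := Finset.le_max_of_eq hmem hc
    simp only [G] at hG
    rw [hc] at hG
    cases h2 : ((code B y).image Prod.fst).max with
    | bot => rw [h2] at hG; simp at hG
    | coe c' =>
      rw [h2] at hG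
      simp only [WithBot.map_coe, WithBot.coe_inj, Prod.mk.injEq] at hG
      obtain ⟨hcc, hpp⟩ := hG
      subst hcc
      have hcx := Finset.mem_of_max h2
      rw [mem_image] at hcx
      obtain ⟨κ', hκ', hκc'⟩ := hcx
      simp only [code, mem_filter] at hκ'
      rcases lt_or_eq_of_le hle with h3 | h3
      · have h4 := (hpc x y c).mp hpp
        have hcB : c / L = B := by rw [← hκc']; exact hκ'.2.1
        have h5 : L * (c / L) ≤ κ.1 := by
          rw [hcB, ← hκB]
          exact Nat.mul_div_le _ _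
        rw [← h4 _ h5 h3]
        exact hbx
      · rw [h3, ← hκc']
        exact hκ'.2.2.2
  -- the map to the product
  let Φ : V → (∀ B ∈ J, WithBot (ℕ × ℕ)) := fun x => fun B _ => G B x
  have hcard : (J.pi T).card ≤ ∏ B ∈ J, ((E.filter (fun κ => κ.1 / L = B)).card + 1) := by
    rw [Finset.card_pi]
    exact Finset.prod_le_prod' (fun B _ => hT B)
  have hmain : X.card ≤ ((E.filter (fun κ => κ.1 / L ∉ J)).card + 1) * (J.pi T).card := by
    apply Finset.card_le_mul_card_image_of_maps_to (f := Φ)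
    · intro x _
      rw [Finset.mem_pi]
      intro B _
      exact hGT B x
    · intro ζ _
      set Y := X.filter (fun x => Φ x = ζ) with hY
      have hYX : Y ⊆ X := filter_subset _ _
      have hYG : ∀ x ∈ Y, ∀ y ∈ Y, ∀ B ∈ J, G B x = G B y := by
        intro x hx y hy B hB
        have h1 : Φ x = Φ y := by
          rw [hY, mem_filter] at hx hy
          rw [hx.2, hy.2]
        exact congrFun (congrFun h1 B) hB
      have hYJ : ∀ x ∈ Y, ∀ y ∈ Y, x ≠ y → fd b id x y / L ∉ J := by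
        intro x hx y hy hxy hmem
        have hex := hX x (hYX hx) y (hYX hy) hxy
        have hd := fd_spec b (s := id) hex
        simp only [id] at hd
        have hpp : pc x (fd b id x y) = pc y (fd b id x y) := by
          rw [hpc]
          intro i _ hi
          have := fd_before b (s := id) hi
          simpa using this
        have hκ := mem_classes b (pc := pc) (hYX hx) (hYX hy) hxy
        have hG1 := hGcode _ x y (hYG x hx y hy _ hmem) _ hκ rfl rfl hpp.symm
        have hG2 := hGcode _ y x (hYG y hy x hx _ hmem) _ hκ rfl hpp.symm rfl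
        cases hbx : b x (fd b id x y) <;> cases hby : b y (fd b id x y) <;> simp_all
      have h1 := path_case' b pc Y (fun x hx y hy h => hX x (hYX hx) y (hYX hy) h) (by
        intro x hx y hy z hz w hw hxy hzw hfd hpp
        by_contra hcon
        push Not at hcon
        obtain ⟨i, hi, hi'⟩ := hcon
        apply hYJ x hx y hy hxy
        apply hJ
        exact ⟨x, hYX hx, y, hYX hy, z, hYX hz, w, hYX hw, hxy, hzw, rfl, hfd.symm, hpp, i, hi, hi'⟩)
      refine h1.trans ?_
      gcongr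
      intro κ hκ
      unfold classes at hκ
      rw [mem_image] at hκ
      obtain ⟨e, he, rfl⟩ := hκ
      rw [mem_offDiag] at he
      rw [mem_filter]
      exact ⟨mem_classes b (hYX he.1) (hYX he.2.1) he.2.2, hYJ _ he.1 _ he.2.1 he.2.2⟩
  exact hmain.trans (Nat.mul_le_mul_left _ hcard)

end

lemma succ_le_pow (a : ℕ) : ((a : ℝ) + 1) ≤ 4 / 3 * (3 / 2) ^ a := by
  induction a with
  | zero => norm_num
  | succ a ih =>
    rcases Nat.eq_zero_or_pos a with h | h
    · subst h; norm_num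
    · have h1 : (1 : ℝ) ≤ a := by exact_mod_cast h
      push_cast
      rw [pow_succ]
      nlinarith

lemma product_real (k e0 : ℕ) (J : Finset ℕ) (v : ℕ → ℕ)
    (h : k ≤ (e0 + 1) * ∏ B ∈ J, (v B + 1)) :
    (k : ℝ) ≤ (4 / 3) ^ (J.card + 1) * (3 / 2) ^ (e0 + ∑ B ∈ J, v B) := by
  have h1 : (k : ℝ) ≤ ((e0 : ℝ) + 1) * ∏ B ∈ J, ((v B : ℝ) + 1) := by exact_mod_cast h
  refine h1.trans ?_
  have h2 : ∏ B ∈ J, ((v B : ℝ) + 1) ≤ ∏ B ∈ J, (4 / 3 * (3 / 2 : ℝ) ^ (v B)) :=
    Finset.prod_le_prod (fun _ _ => by positivity) (fun B _ => succ_le_pow (v B))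
  have h3 : ∏ B ∈ J, (4 / 3 * (3 / 2 : ℝ) ^ (v B)) = (4 / 3) ^ J.card * (3 / 2) ^ (∑ B ∈ J, v B) := by
    rw [Finset.prod_mul_distrib, Finset.prod_const, Finset.prod_pow_eq_pow_sum]
  rw [h3] at h2
  calc ((e0 : ℝ) + 1) * ∏ B ∈ J, ((v B : ℝ) + 1)
      ≤ (4 / 3 * (3 / 2) ^ e0) * ((4 / 3) ^ J.card * (3 / 2) ^ (∑ B ∈ J, v B)) :=
        mul_le_mul (succ_le_pow e0) h2 (by positivity) (by positivity)
    _ = _ := by rw [pow_succ, pow_add]; ring

/-- the numerical consequence: `2 ^ h + s ≥ r - 2` where `E = r + h`. -/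
lemma numbers (k r h s : ℕ) (hk : 2 ^ (r - 1) < k) (hr : 1 ≤ r)
    (hb : (k : ℝ) ≤ (4 / 3) ^ (s + 1) * (3 / 2) ^ (r + h)) : r ≤ 2 ^ h + s + 2 := by
  by_contra hcon
  push Not at hcon
  -- r ≥ 2^h + s + 3, so r = (s+1) + u with u ≥ 2^h + 2
  have h2h : 0 < 2 ^ h := by positivity
  obtain ⟨u, hu⟩ : ∃ u, r = (s + 1) + u := ⟨r - (s + 1), by omega⟩
  have hu2 : 2 ^ h + 2 ≤ u := by omega
  have h1 : (2 : ℝ) ^ (r - 1) < k := by exact_mod_cast hk
  have h2 : (2 : ℝ) ^ r = 2 * 2 ^ (r - 1) := by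
    rw [← pow_succ']
    congr 1
    omega
  have h3 : (2 : ℝ) ^ r < 2 * ((4 / 3) ^ (s + 1) * (3 / 2) ^ (r + h)) := by
    rw [h2]; linarith
  have h4 : (2 : ℝ) ^ r = (4 / 3) ^ r * (3 / 2) ^ r := by
    rw [← mul_pow]; norm_num
  have h5 : (4 / 3 : ℝ) ^ r = (4 / 3) ^ (s + 1) * (4 / 3) ^ u := by
    rw [hu, pow_add]
  have h6 : (4 / 3 : ℝ) ^ u < 2 * (3 / 2) ^ h := by
    rw [h4, h5, pow_add (3 / 2 : ℝ) r h] at h3
    have hpos : (0 : ℝ) < (4 / 3) ^ (s + 1) * (3 / 2) ^ r := by positivity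
    have h7 : (4 / 3 : ℝ) ^ (s + 1) * (3 / 2) ^ r * (4 / 3) ^ u <
        (4 / 3 : ℝ) ^ (s + 1) * (3 / 2) ^ r * (2 * (3 / 2) ^ h) := by
      calc (4 / 3 : ℝ) ^ (s + 1) * (3 / 2) ^ r * (4 / 3) ^ u
          = (4 / 3) ^ (s + 1) * (4 / 3) ^ u * (3 / 2) ^ r := by ring
        _ < 2 * ((4 / 3) ^ (s + 1) * ((3 / 2) ^ r * (3 / 2) ^ h)) := h3
        _ = _ := by ring
    exact lt_of_mul_lt_mul_left h7 hpos.le
  have h8 : (4 / 3 : ℝ) ^ (2 ^ h + 2) ≤ (4 / 3) ^ u :=
    pow_le_pow_right₀ (by norm_num) hu2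
  have h9 : ∀ h : ℕ, 2 * (3 / 2 : ℝ) ^ h ≤ (4 / 3 : ℝ) ^ (2 ^ h + 2) := by
    intro h
    induction h with
    | zero => norm_num
    | succ h ih =>
      have hp : (4 / 3 : ℝ) ^ (2 ^ (h + 1) + 2) = (4 / 3) ^ (2 ^ h + 2) * (4 / 3) ^ (2 ^ h) := by
        rw [← pow_add]; congr 1; ring
      rw [hp, pow_succ]
      rcases Nat.eq_zero_or_pos h with h0 | h0
      · subst h0; norm_num
      · have h10 : (2 : ℕ) ≤ 2 ^ h := by
          calc 2 = 2 ^ 1 := rfl
            _ ≤ 2 ^ h := Nat.pow_le_pow_right (by norm_num) h0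
        have h11 : (3 / 2 : ℝ) ≤ (4 / 3) ^ (2 ^ h) := by
          calc (3 / 2 : ℝ) ≤ (4 / 3) ^ 2 := by norm_num
            _ ≤ (4 / 3) ^ (2 ^ h) := pow_le_pow_right₀ (by norm_num) h10
        calc 2 * ((3 / 2 : ℝ) ^ h * (3 / 2)) = (2 * (3 / 2) ^ h) * (3 / 2) := by ring
          _ ≤ (4 / 3) ^ (2 ^ h + 2) * (4 / 3) ^ (2 ^ h) :=
            mul_le_mul ih h11 (by norm_num) (by positivity)
  linarith [h9 h]

end Pool.Agent.H430P
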