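import Mathlib
import Pool.Agent.H430P.Core
import Pool.Agent.H430P.Core2

namespace Pool.Agent.H430P

open Finset

section

variable {V : Type*} [DecidableEq V] (b : V → ℕ → Bool)

lemma coinc_norm (L : ℕ) (pc : V → ℕ → ℕ)
    (hpc : ∀ x y c, pc x c = pc y c ↔ ∀ i, L * (c / L) ≤ i → i < c → b x i = b y i)
    (X : Finset V) (hX : ∀ x ∈ X, ∀ y ∈ X, x ≠ y → ∃ i, b x i ≠ b y i)
    (c : ℕ) (h : Coinc b pc X c) :
    ∃ x ∈ X, ∃ y ∈ X, ∃ z ∈ X, ∃ w ∈ X, (∀ i < c, b x i = b y i) ∧ (∀ i < c, b z i = b w i) ∧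
      b x c = false ∧ b y c = true ∧ b z c = false ∧ b w c = true ∧ pc x c = pc z c ∧
      ∃ i < c, b x i ≠ b z i := by
  obtain ⟨x, hx, y, hy, z, hz, w, hw, hxy, hzw, hfd1, hfd2, hpre, i1, hi1, hi1'⟩ := h
  have hxyb : ∀ i < c, b x i = b y i := fun i hi => by
    rw [← hfd1] at hi
    have := fd_before b (s := id) hi
    simpa using this
  have hzwb : ∀ i < c, b z i = b w i := fun i hi => by
    rw [← hfd2] at hi
    have := fd_before b (s := id) hi
    simpa using this
  have hxyc : b x c ≠ b y c := by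
    have := fd_spec b (s := id) (hX x hx y hy hxy)
    rw [hfd1] at this
    simpa using this
  have hzwc : b z c ≠ b w c := by
    have := fd_spec b (s := id) (hX z hz w hw hzw)
    rw [hfd2] at this
    simpa using this
  have hpcxy : pc x c = pc y c := by
    rw [hpc]; intro i _ hi; exact hxyb i hi
  have hpczw : pc z c = pc w c := by
    rw [hpc]; intro i _ hi; exact hzwb i hi
  cases hbx : b x c <;> cases hbz : b z c
  · exact ⟨x, hx, y, hy, z, hz, w, hw, hxyb, hzwb, hbx,
      (by cases h : b y c <;> simp_all), hbz, (by cases h : b w c <;> simp_all),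
      hpre, i1, hi1, hi1'⟩
  · exact ⟨x, hx, y, hy, w, hw, z, hz, hxyb, (fun i hi => (hzwb i hi).symm), hbx,
      (by cases h : b y c <;> simp_all), (by cases h : b w c <;> simp_all), hbz,
      (hpre.trans hpczw), i1, hi1, by rw [← hzwb i1 hi1]; exact hi1'⟩
  · exact ⟨y, hy, x, hx, z, hz, w, hw, (fun i hi => (hxyb i hi).symm), hzwb,
      (by cases h : b y c <;> simp_all), hbx, hbz, (by cases h : b w c <;> simp_all),
      (hpcxy.symm.trans hpre), i1, hi1, by rw [← hxyb i1 hi1]; exact hi1'⟩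
  · exact ⟨y, hy, x, hx, w, hw, z, hz, (fun i hi => (hxyb i hi).symm),
      (fun i hi => (hzwb i hi).symm),
      (by cases h : b y c <;> simp_all), hbx, (by cases h : b w c <;> simp_all), hbz,
      ((hpcxy.symm.trans hpre).trans hpczw),
      i1, hi1, by rw [← hxyb i1 hi1, ← hzwb i1 hi1]; exact hi1'⟩

lemma sep2 (L : ℕ) (hL : 0 < L) (pc : V → ℕ → ℕ)
    (hpc : ∀ x y c, pc x c = pc y c ↔ ∀ i, L * (c / L) ≤ i → i < c → b x i = b y i)
    (X : Finset V) (c B' : ℕ) (hB' : B' < c / L)
    (x y z w : V) (hx : x ∈ X) (hy : y ∈ X) (hz : z ∈ X) (hw : w ∈ X)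
    (hxy : ∀ i < c, b x i = b y i) (hzw : ∀ i < c, b z i = b w i)
    (bx : b x c = false) (by' : b y c = true) (bz : b z c = false) (bw : b w c = true)
    (hpre : pc x c = pc z c) (hdiff : ∃ i < c, b x i ≠ b z i)
    (ψ' ψ : ℕ → Bool) :
    ordOn X (keyS b (sB L B') ψ') ≠ ordOn X (keyS b (sB L (c / L)) ψ) := by
  intro heq
  obtain ⟨i1, hi1, hi1'⟩ := hdiff
  set s' := sB L B' with hs'
  have hs'L : ∀ i, s' (i + L) = i := by intro i; simp [hs', sB]
  have hex : ∃ i, b x (s' i) ≠ b z (s' i) := ⟨i1 + L, by rw [hs'L]; exact hi1'⟩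
  set e := fd b s' x z with he
  have he1 : b x (s' e) ≠ b z (s' e) := fd_spec b hex
  have heL : e ≤ i1 + L := Nat.sInf_le (s := {i | b x (s' i) ≠ b z (s' i)})
    (by show b x (s' (i1 + L)) ≠ b z (s' (i1 + L)); rw [hs'L]; exact hi1')
  have hlow : ∀ i ≤ e, s' i < c := by
    intro i hi
    simp only [hs', sB]
    split_ifs with h
    · have h1 : (B' + 1) * L ≤ (c / L) * L := Nat.mul_le_mul_right _ hB'
      have h2 := Nat.div_mul_le_self c L
      have h3 : (B' + 1) * L = B' * L + L := by ring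
      omega
    · omega
  have he2 : ∀ i < e, b x (s' i) = b z (s' i) := fun i hi => fd_before b hi
  have hfd : ∀ u v : V, (∀ i < c, b u i = b x i) → (∀ i < c, b v i = b z i) →
      fd b s' u v = e := by
    intro u v hu hv
    apply fd_eq
    · intro i hi
      rw [hu _ (hlow i hi.le), hv _ (hlow i hi.le), he2 i hi]
    · rw [hu _ (hlow e le_rfl), hv _ (hlow e le_rfl)]
      exact he1
  have hT : ∀ u v : V, (∀ i < c, b u i = b x i) → (∀ i < c, b v i = b z i) →
      ((toLex (keyS b s' ψ' u) < toLex (keyS b s' ψ' v)) ↔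
        xor (b x (s' e)) (ψ' (s' e)) = false) := by
    intro u v hu hv
    have hne : ∃ i, b u (s' i) ≠ b v (s' i) :=
      ⟨e, by rw [hu _ (hlow e le_rfl), hv _ (hlow e le_rfl)]; exact he1⟩
    rw [keyS_lt b s' ψ' hne, hfd u v hu hv, hu _ (hlow e le_rfl)]
  have hyx : ∀ i < c, b y i = b x i := fun i hi => (hxy i hi).symm
  have hwz : ∀ i < c, b w i = b z i := fun i hi => (hzw i hi).symm
  -- the block-first orders
  set j := c / L with hj
  have hi0 : c % L < L := Nat.mod_lt _ hL
  have hs0 : sB L j (c % L) = c := by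
    simp only [sB, hi0, if_true]
    rw [hj, mul_comm]
    exact Nat.div_add_mod c L
  have hsi : ∀ i < c % L, L * (c / L) ≤ sB L j i ∧ sB L j i < c := by
    intro i hi
    have hiL : i < L := hi.trans hi0
    simp only [sB, hiL, if_true]
    have h1 := Nat.div_add_mod c L
    rw [hj, mul_comm (c / L) L]
    omega
  have hxz : ∀ i, L * (c / L) ≤ i → i < c → b x i = b z i := (hpc x z c).mp hpre
  have hB : ∀ u v : V, (∀ i, L * (c / L) ≤ i → i < c → b u i = b x i) →
      (∀ i, L * (c / L) ≤ i → i < c → b v i = b x i) → b u c = false → b v c = true →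
      ((toLex (keyS b (sB L j) ψ u) < toLex (keyS b (sB L j) ψ v)) ↔ ψ c = false) := by
    intro u v hu hv huc hvc
    have hne : ∃ i, b u (sB L j i) ≠ b v (sB L j i) := ⟨c % L, by rw [hs0, huc, hvc]; simp⟩
    have hfd' : fd b (sB L j) u v = c % L := by
      apply fd_eq
      · intro i hi
        obtain ⟨h1, h2⟩ := hsi i hi
        rw [hu _ h1 h2, hv _ h1 h2]
      · rw [hs0, huc, hvc]; simp
    rw [keyS_lt b _ ψ hne, hfd', hs0, huc]
    simp
  have hcx : ∀ i, L * (c / L) ≤ i → i < c → b x i = b x i := fun _ _ _ => rfl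
  have hcy : ∀ i, L * (c / L) ≤ i → i < c → b y i = b x i := fun i _ h => (hxy i h).symm
  have hcz : ∀ i, L * (c / L) ≤ i → i < c → b z i = b x i := fun i h1 h2 => (hxz i h1 h2).symm
  have hcw : ∀ i, L * (c / L) ≤ i → i < c → b w i = b x i := fun i h1 h2 => by
    rw [hwz i h2, hcz i h1 h2]
  have e1 := hT x w (fun _ _ => rfl) hwz
  have e2 := hT y z hyx (fun _ _ => rfl)
  have e3 := hB x w hcx hcw bx bw
  have e4 := hB z y hcz hcy bz by'
  have f1 : (toLex (keyS b s' ψ' x) < toLex (keyS b s' ψ' w)) ↔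
      (toLex (keyS b (sB L j) ψ x) < toLex (keyS b (sB L j) ψ w)) := by
    have := congrFun (congrFun heq ⟨x, hx⟩) ⟨w, hw⟩
    simp only [ordOn] at this
    rw [this]
  have f3 : (toLex (keyS b s' ψ' z) < toLex (keyS b s' ψ' y)) ↔
      (toLex (keyS b (sB L j) ψ z) < toLex (keyS b (sB L j) ψ y)) := by
    have := congrFun (congrFun heq ⟨z, hz⟩) ⟨y, hy⟩
    simp only [ordOn] at this
    rw [this]
  have g1 : (toLex (keyS b s' ψ' y) < toLex (keyS b s' ψ' z)) ↔
      (toLex (keyS b s' ψ' z) < toLex (keyS b s' ψ' y)) := by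
    rw [e2, ← e1, f1, e3, ← e4, ← f3]
  have hne : toLex (keyS b s' ψ' y) ≠ toLex (keyS b s' ψ' z) := by
    intro h
    have h1 : keyS b s' ψ' y e = keyS b s' ψ' z e := congrFun (toLex.injective h) e
    simp only [keyS] at h1
    have h3 : b y (s' e) = b z (s' e) := by simpa using h1
    rw [hyx _ (hlow e le_rfl)] at h3
    exact he1 h3
  rcases lt_or_gt_of_ne hne with h | h
  · exact lt_asymm h (g1.mp h)
  · exact lt_asymm h (g1.mpr h)

theorem core2 (L N q : ℕ) (hL : 0 < L) (hN : N = q * L) (pc : V → ℕ → ℕ)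
    (hpc : ∀ x y c, pc x c = pc y c ↔ ∀ i, L * (c / L) ≤ i → i < c → b x i = b y i)
    (hpcL : ∀ x c, pc x c < 2 ^ L)
    (hb : ∀ x y, x ≠ y → ∃ i, i < N ∧ b x i ≠ b y i)
    {IA IB : Type*} (φ : IA → ℕ × ℕ → Bool) (ψ : IB → ℕ → Bool) (k r : ℕ)
    (hφ : ∀ A : Finset (ℕ × ℕ), A ⊆ range N ×ˢ range (2 ^ L) → A.card ≤ 2 * r →
      ∀ p : ℕ × ℕ → Bool, ∃ i, ∀ κ ∈ A, φ i κ = p κ)
    (hψ : ∀ A : Finset ℕ, A ⊆ range N → A.card ≤ 2 * r →
      ∀ p : ℕ → Bool, ∃ i, ∀ c ∈ A, ψ i c = p c)
    (hr : 1 ≤ r) (hk : 2 ^ (r - 1) < k) (hrk : r + 1 < k)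
    (X : Finset V) (hX : X.card = k) :
    max 2 (r - 2) * 2 ^ r ≤ (Set.range (fun i : IA => ordOn X (keyA b pc (φ i))) ∪
      Set.range (fun e : Fin q × IB => ordOn X (keyS b (sB L e.1) (ψ e.2)))).ncard := by
  classical
  have hbe : ∀ x y, x ≠ y → ∃ i, b x i ≠ b y i := fun x y h => by
    obtain ⟨i, _, hi⟩ := hb x y h
    exact ⟨i, hi⟩
  have hbX : ∀ x ∈ X, ∀ y ∈ X, x ≠ y → ∃ i, b x i ≠ b y i := fun x _ y _ h => hbe x y h
  have hfdN : ∀ x y, x ≠ y → fd b id x y < N := by
    intro x y h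
    obtain ⟨i, hi, hi'⟩ := hb x y h
    exact lt_of_le_of_lt (Nat.sInf_le (s := {i | b x (id i) ≠ b y (id i)}) hi') hi
  set E : Finset (ℕ × ℕ) := classes b pc X with hE
  have hEsub : E ⊆ range N ×ˢ range (2 ^ L) := by
    intro κ hκ
    rw [hE] at hκ
    unfold classes at hκ
    rw [mem_image] at hκ
    obtain ⟨e, he, rfl⟩ := hκ
    rw [mem_offDiag] at he
    rw [mem_product, mem_range, mem_range]
    exact ⟨hfdN _ _ he.2.2, hpcL _ _⟩
  have countA : ∀ A ⊆ E, A.card ≤ 2 * r →
      2 ^ A.card ≤ (Set.range (fun i : IA => ordOn X (keyA b pc (φ i)))).ncard := by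
    intro A hAE hAr
    apply count_orders (fun i : IA => ordOn X (keyA b pc (φ i))) φ A
    · intro κ hκ
      have hκ' := hAE hκ
      rw [hE] at hκ'
      unfold classes at hκ'
      rw [mem_image] at hκ'
      obtain ⟨e, he, rfl⟩ := hκ'
      rw [mem_offDiag] at he
      refine ⟨⟨e.1, he.1⟩, ⟨e.2, he.2.1⟩, b e.1 (fd b id e.1 e.2), ?_⟩
      intro i
      exact keyA_lt b L pc hpc (φ i) (hbe _ _ he.2.2)
    · intro p
      exact hφ A (hAE.trans hEsub) hAr p
  have h2r : 2 ≤ 2 ^ r := by
    calc 2 = 2 ^ 1 := rfl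
      _ ≤ 2 ^ r := Nat.pow_le_pow_right (by norm_num) hr
  have hr2r : r < 2 ^ r := Nat.lt_two_pow_self
  by_cases hcase : 2 * r ≤ E.card
  · obtain ⟨A, hAE, hA⟩ := Finset.exists_subset_card_eq hcase
    have h1 := countA A hAE hA.le
    rw [hA] at h1
    calc max 2 (r - 2) * 2 ^ r ≤ 2 ^ r * 2 ^ r := by
          apply Nat.mul_le_mul_right
          apply max_le h2r
          omega
      _ = 2 ^ (2 * r) := by rw [← pow_add]; congr 1; ring
      _ ≤ _ := h1
      _ ≤ _ := Set.ncard_le_ncard Set.subset_union_left (Set.toFinite _)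
  · push Not at hcase
    have hlev1 : (levels b id X).card ≤ E.card := by
      have hlevE : levels b id X = E.image Prod.fst := by
        rw [hE]
        unfold classes
        rw [image_image]
        rfl
      rw [hlevE]; exact card_image_le
    have hlevr : ∀ s : ℕ → ℕ, (∀ x ∈ X, ∀ y ∈ X, x ≠ y → ∃ i, b x (s i) ≠ b y (s i)) →
        r ≤ (levels b s X).card := by
      intro s hs
      have h1 := card_le_levels b s X hs
      rw [hX] at h1
      by_contra hlt
      push Not at hlt
      have h2 : (2 : ℕ) ^ (levels b s X).card ≤ 2 ^ (r - 1) :=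
        Nat.pow_le_pow_right (by norm_num) (by omega)
      omega
    have hlev2 := hlevr id (fun x _ y _ h => hbe x y h)
    obtain ⟨h, hh⟩ : ∃ h, E.card = r + h := ⟨E.card - r, by omega⟩
    -- coincidence blocks
    set J : Finset ℕ := (range q).filter (fun B => ∃ c, Coinc b pc X c ∧ c / L = B) with hJdef
    have hJ : ∀ c, Coinc b pc X c → c / L ∈ J := by
      intro c hc
      rw [hJdef, mem_filter, mem_range]
      refine ⟨?_, c, hc, rfl⟩
      obtain ⟨x, hx, y, hy, z, hz, w, hw, hxy, hzw, hfd1, _⟩ := hc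
      have := hfdN x y hxy
      rw [Nat.div_lt_iff_lt_mul hL]
      omega
    have hprod := product_bound b L pc hpc X hbX J hJ
    rw [hX, ← hE] at hprod
    have hpart : (E.filter (fun κ => κ.1 / L ∉ J)).card +
        ∑ B ∈ J, (E.filter (fun κ => κ.1 / L = B)).card = E.card := by
      have h1 : (E.filter (fun κ => κ.1 / L ∈ J)).card =
          ∑ B ∈ J, (E.filter (fun κ => κ.1 / L = B)).card := by
        rw [Finset.card_eq_sum_card_fiberwise (f := fun κ : ℕ × ℕ => κ.1 / L) (t := J)]
        · apply Finset.sum_congr rfl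
          intro B hB
          congr 1
          ext κ
          simp only [mem_filter]
          constructor
          · rintro ⟨⟨h1, _⟩, h2⟩; exact ⟨h1, h2⟩
          · rintro ⟨h1, h2⟩; exact ⟨⟨h1, by rw [h2]; exact hB⟩, h2⟩
        · intro κ hκ
          have hκ' : κ ∈ E.filter (fun κ => κ.1 / L ∈ J) := hκ
          exact (mem_filter.mp hκ').2
      rw [← h1, add_comm]
      exact Finset.card_filter_add_card_filter_not _
    have hreal := product_real k _ J (fun B => (E.filter (fun κ => κ.1 / L = B)).card) hprod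
    rw [hpart, hh] at hreal
    have hnum := numbers k r h J.card hk hr hreal
    -- at least two
    have htwo : 2 ≤ 2 ^ h + J.card := by
      rcases Nat.eq_zero_or_pos h with h0 | h0
      · rcases Nat.eq_zero_or_pos J.card with hJ0 | hJ0
        · exfalso
          have hJe : J = ∅ := Finset.card_eq_zero.mp hJ0
          rw [hJe] at hprod hpart
          simp only [prod_empty, mul_one, sum_empty, add_zero] at hprod hpart
          omega
        · subst h0; simp; omega
      · have : 2 ≤ 2 ^ h := by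
          calc 2 = 2 ^ 1 := rfl
            _ ≤ 2 ^ h := Nat.pow_le_pow_right (by norm_num) h0
        omega
    -- counting
    have hA2 := countA E Subset.rfl (by omega)
    rw [hh] at hA2
    have hB2 : ∀ B ∈ J, 2 ^ r ≤
        (Set.range (fun i : IB => ordOn X (keyS b (sB L B) (ψ i)))).ncard := by
      intro B hB
      have hBq : B < q := by
        rw [hJdef, mem_filter, mem_range] at hB
        exact hB.1
      have hsBex : ∀ x ∈ X, ∀ y ∈ X, x ≠ y → ∃ i, b x (sB L B i) ≠ b y (sB L B i) :=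
        fun x _ y _ h => sB_exists b L B (hbe x y h)
      obtain ⟨A, hAsub, hAr⟩ := Finset.exists_subset_card_eq (hlevr (sB L B) hsBex)
      have hlevN : levels b (sB L B) X ⊆ range N := by
        intro l hl
        unfold levels at hl
        rw [mem_image] at hl
        obtain ⟨e, he, rfl⟩ := hl
        rw [mem_offDiag] at he
        rw [mem_range]
        obtain ⟨i, hi, hi'⟩ := hb e.1 e.2 he.2.2
        have hsBL : sB L B (i + L) = i := by simp [sB]
        have h1 : fd b (sB L B) e.1 e.2 ≤ i + L := by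
          apply Nat.sInf_le
          show b e.1 (sB L B (i + L)) ≠ b e.2 (sB L B (i + L))
          rwa [hsBL]
        generalize fd b (sB L B) e.1 e.2 = f at h1 ⊢
        unfold sB
        split_ifs with hlt
        · rw [hN]
          calc B * L + f < B * L + L := Nat.add_lt_add_left hlt _
            _ = (B + 1) * L := by ring
            _ ≤ q * L := Nat.mul_le_mul_right _ hBq
        · omega
      rw [← hAr]
      apply count_orders (fun i : IB => ordOn X (keyS b (sB L B) (ψ i))) ψ A
      · intro κ hκ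
        have hκ' := hAsub hκ
        unfold levels at hκ'
        rw [mem_image] at hκ'
        obtain ⟨e, he, rfl⟩ := hκ'
        rw [mem_offDiag] at he
        refine ⟨⟨e.1, he.1⟩, ⟨e.2, he.2.1⟩, b e.1 (sB L B (fd b (sB L B) e.1 e.2)), ?_⟩
        intro i
        exact keyS_lt b _ (ψ i) (sB_exists b L B (hbe _ _ he.2.2))
      · intro p
        exact hψ A (hAsub.trans hlevN) (by omega) p
    -- finsets
    let F0 : Finset (X → X → Prop) :=
      (Set.toFinite (Set.range (fun i : IA => ordOn X (keyA b pc (φ i))))).toFinset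
    let F : ℕ → Finset (X → X → Prop) := fun B =>
      (Set.toFinite (Set.range (fun i : IB => ordOn X (keyS b (sB L B) (ψ i))))).toFinset
    have hF0 : 2 ^ (r + h) ≤ F0.card := by
      rw [← Set.ncard_eq_toFinset_card _ (Set.toFinite _)]
      exact hA2
    have hF : ∀ B ∈ J, 2 ^ r ≤ (F B).card := by
      intro B hB
      rw [← Set.ncard_eq_toFinset_card _ (Set.toFinite _)]
      exact hB2 B hB
    have hlt : ∀ B ∈ J, ∀ B' < B, Disjoint (F B') (F B) := by
      intro B hB B' hB'
      rw [hJdef, mem_filter] at hB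
      obtain ⟨_, c, hc, rfl⟩ := hB
      obtain ⟨x, hx, y, hy, z, hz, w, hw, h1, h2, h3, h4, h5, h6, h7, h8⟩ :=
        coinc_norm b L pc hpc X hbX c hc
      rw [Finset.disjoint_left]
      intro R hR hR'
      simp only [F, Set.Finite.mem_toFinset] at hR hR'
      obtain ⟨i, rfl⟩ := hR
      obtain ⟨i', hi'⟩ := hR'
      exact sep2 b L hL pc hpc X c B' hB' x y z w hx hy hz hw h1 h2 h3 h4 h5 h6 h7 h8
        (ψ i) (ψ i') hi'.symm
    have h0 : ∀ B ∈ J, Disjoint F0 (F B) := by
      intro B hB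
      rw [hJdef, mem_filter] at hB
      obtain ⟨_, c, hc, rfl⟩ := hB
      obtain ⟨x, hx, y, hy, z, hz, w, hw, h1, h2, h3, h4, h5, h6, h7, h8⟩ :=
        coinc_norm b L pc hpc X hbX c hc
      rw [Finset.disjoint_left]
      intro R hR hR'
      simp only [F0, F, Set.Finite.mem_toFinset] at hR hR'
      obtain ⟨i, rfl⟩ := hR
      obtain ⟨i', hi'⟩ := hR'
      exact sep b L hL pc hpc X c x y z w hx hy hz hw h1 h2 h3 h4 h5 h6 h7 h8
        (φ i) (ψ i') hi'.symm
    have hUcard : (J.biUnion F).card = ∑ B ∈ J, (F B).card := by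
      apply Finset.card_biUnion
      intro B hB B' hB' hne
      rcases lt_or_gt_of_ne hne with h | h
      · exact hlt B' hB' B h
      · exact (hlt B hB B' h).symm
    have hdisj0 : Disjoint F0 (J.biUnion F) := by
      rw [Finset.disjoint_biUnion_right]
      exact h0
    have htot : (2 ^ h + J.card) * 2 ^ r ≤ (F0 ∪ J.biUnion F).card := by
      rw [Finset.card_union_of_disjoint hdisj0, hUcard]
      calc (2 ^ h + J.card) * 2 ^ r = 2 ^ (r + h) + J.card * 2 ^ r := by rw [pow_add]; ring
        _ ≤ F0.card + ∑ B ∈ J, (F B).card := by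
          apply add_le_add hF0
          calc J.card * 2 ^ r = ∑ B ∈ J, 2 ^ r := by rw [sum_const, smul_eq_mul]
            _ ≤ _ := Finset.sum_le_sum hF
    calc max 2 (r - 2) * 2 ^ r ≤ (2 ^ h + J.card) * 2 ^ r := by
          apply Nat.mul_le_mul_right
          apply max_le htwo
          omega
      _ ≤ (F0 ∪ J.biUnion F).card := htot
      _ = ((F0 ∪ J.biUnion F : Finset (X → X → Prop)) : Set (X → X → Prop)).ncard :=
          (Set.ncard_coe_finset _).symm
      _ ≤ _ := by
          apply Set.ncard_le_ncard _ (Set.toFinite _)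
          intro R hR
          rw [Finset.mem_coe, Finset.mem_union, Finset.mem_biUnion] at hR
          rcases hR with hR | ⟨B, hB, hR⟩
          · left
            simpa only [F0, Set.Finite.mem_toFinset] using hR
          · right
            simp only [F, Set.Finite.mem_toFinset] at hR
            obtain ⟨i, rfl⟩ := hR
            rw [hJdef, mem_filter, mem_range] at hB
            exact ⟨(⟨B, hB.1⟩, i), rfl⟩

end

end Pool.Agent.H430P
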