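import Mathlib
import Pool.Agent.H430P.Indep
import Pool.Agent.H430P.Core3
import Pool.Agent.H430P.Assembly

namespace Pool.Agent.H430P

open Finset

theorem family_nat2 (k n r m a L q : ℕ) (hr : r = Nat.clog 2 k) (hk : 4 ≤ k)
    (hm : m = Nat.clog 2 n) (hL : 0 < L) (hqL : m < q * L) (ha : 2 * (q * L) ≤ 2 ^ a) (ha1 : 1 ≤ a)
    (hrN : 2 * r ≤ q * L) :
    ∃ P : Finset (Equiv.Perm (Fin n)),
      P.card ≤ (2 * r) * 2 ^ (2 * r) * (a + L) + q * ((2 * r) * 2 ^ (2 * r) * a) ∧
      ∀ X : Finset (Fin n), X.card = k →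
        max 2 (r - 2) * 2 ^ r ≤ ((fun ρ : Equiv.Perm (Fin n) => (fun x y : X => ρ x < ρ y)) ''
          (P : Set (Equiv.Perm (Fin n)))).ncard := by
  classical
  have hr1 : 1 ≤ r := by
    rw [hr]
    exact Nat.clog_pos (by norm_num) (by omega)
  obtain ⟨F2, hF2⟩ := indepF (range (q * L)) (2 * r) a (by omega) ha1 (by simpa using ha)
    (by rw [card_range]; omega)
  obtain ⟨F1, hF1⟩ := indepF (range (q * L) ×ˢ range (2 ^ L)) (2 * r) (a + L) (by omega) (by omega)
    (by
      rw [card_product, card_range, card_range, pow_add]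
      calc 2 * (q * L * 2 ^ L) = (2 * (q * L)) * 2 ^ L := by ring
        _ ≤ 2 ^ a * 2 ^ L := Nat.mul_le_mul_right _ ha)
    (by
      rw [card_product, card_range, card_range]
      calc 2 * r ≤ q * L := hrN
        _ = q * L * 1 := (mul_one _).symm
        _ ≤ q * L * 2 ^ L := Nat.mul_le_mul_left _ Nat.one_le_two_pow)
  let b : Fin n → ℕ → Bool := fun x i => (x : ℕ).testBit i
  let pc : Fin n → ℕ → ℕ := fun x c => pcode L x c
  have hpc : ∀ x y c, pc x c = pc y c ↔ ∀ i, L * (c / L) ≤ i → i < c → b x i = b y i :=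
    fun x y c => pcode_iff L x y c
  have hpcL : ∀ x c, pc x c < 2 ^ L := fun x c => pcode_lt L hL x c
  have hbig : ∀ (x : Fin n) i, q * L ≤ i → (x : ℕ).testBit i = false := by
    intro x i hi
    apply Nat.testBit_lt_two_pow
    calc (x : ℕ) < n := x.2
      _ ≤ 2 ^ m := by rw [hm]; exact Nat.le_pow_clog (by norm_num) n
      _ ≤ 2 ^ i := Nat.pow_le_pow_right (by norm_num) (by omega)
  have hb : ∀ x y : Fin n, x ≠ y → ∃ i, i < q * L ∧ b x i ≠ b y i := by
    intro x y hxy
    by_contra hcon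
    push Not at hcon
    apply hxy
    apply Fin.ext
    apply Nat.eq_of_testBit_eq
    intro i
    by_cases hi : i < q * L
    · exact hcon i hi
    · rw [hbig x i (by omega), hbig y i (by omega)]
  have hbe : ∀ x y : Fin n, x ≠ y → ∃ i, b x i ≠ b y i := fun x y h => by
    obtain ⟨i, _, hi⟩ := hb x y h
    exact ⟨i, hi⟩
  have hA : ∀ i : Fin ((2 * r) * 2 ^ (2 * r) * (a + L)), ∃ π : Equiv.Perm (Fin n),
      ∀ x y, π x < π y ↔ toLex (keyA b pc (F1 i) x) < toLex (keyA b pc (F1 i) y) :=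
    fun i => exists_perm _ (keyA_inj b L pc hpc hbe (F1 i))
  have hB : ∀ e : Fin q × Fin ((2 * r) * 2 ^ (2 * r) * a), ∃ π : Equiv.Perm (Fin n),
      ∀ x y, π x < π y ↔
        toLex (keyS b (sB L e.1) (F2 e.2) x) < toLex (keyS b (sB L e.1) (F2 e.2) y) :=
    fun e => exists_perm _ (keyS_inj b _ (fun x y h => sB_exists b L e.1 (hbe x y h)) (F2 e.2))
  choose πA hπA using hA
  choose πB hπB using hB
  refine ⟨univ.image πA ∪ univ.image πB, ?_, ?_⟩
  · calc (univ.image πA ∪ univ.image πB).card ≤ (univ.image πA).card + (univ.image πB).card :=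
          card_union_le _ _
      _ ≤ (univ : Finset (Fin ((2 * r) * 2 ^ (2 * r) * (a + L)))).card +
          (univ : Finset (Fin q × Fin ((2 * r) * 2 ^ (2 * r) * a))).card :=
          add_le_add card_image_le card_image_le
      _ = _ := by simp
  · intro X hX
    have hk2 : 2 ^ (r - 1) < k := by
      rw [hr]
      exact Nat.pow_pred_clog_lt_self (by norm_num) (by omega)
    have hrk : r + 1 < k := by
      rw [hr]
      have h1 : Nat.clog 2 k ≤ k - 2 := by
        apply Nat.clog_le_of_le_pow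
        have : ∀ j, 2 ≤ j → j + 2 ≤ 2 ^ j := by
          intro j hj
          induction j, hj using Nat.le_induction with
          | base => norm_num
          | succ j hj ih => rw [pow_succ]; omega
        have := this (k - 2) (by omega)
        omega
      omega
    have hcore := core2 b L (q * L) q hL rfl pc hpc hpcL hb F1 F2 k r hF1 hF2 hr1 hk2 hrk X hX
    refine hcore.trans (Set.ncard_le_ncard ?_ (Set.toFinite _))
    rintro R (⟨i, rfl⟩ | ⟨e, rfl⟩)
    · refine ⟨πA i, by simp, ?_⟩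
      funext x y
      exact propext (hπA i x y)
    · refine ⟨πB e, by simp, ?_⟩
      funext x y
      exact propext (hπB e x y)

theorem family_real2 (k n : ℕ) (hk : 4 ≤ k) (hn : 16 ≤ n) (hn2 : 2 ^ (2 * Nat.clog 2 k) ≤ n) :
    ∃ P : Finset (Equiv.Perm (Fin n)),
      (P.card : ℝ) ≤ (42 * ((2 * Nat.clog 2 k) * 2 ^ (2 * Nat.clog 2 k)) : ℝ) *
        √(Real.log n * Real.log (Real.log n)) ∧
      ∀ X : Finset (Fin n), X.card = k →
        max 2 (Nat.clog 2 k - 2) * 2 ^ (Nat.clog 2 k) ≤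
          ((fun ρ : Equiv.Perm (Fin n) => (fun x y : X => ρ x < ρ y)) ''
          (P : Set (Equiv.Perm (Fin n)))).ncard := by
  set m := Nat.clog 2 n with hm
  have hm1 : 1 ≤ m := Nat.clog_pos (by norm_num) (by omega)
  set a0 := Nat.log 2 m + 1 with ha0
  set L := Nat.sqrt (m * a0) + 1 with hL
  set q := m / L + 1 with hq
  have hLpos : 0 < L := by omega
  have hqL : m < q * L := by
    rw [hq, add_mul, one_mul]
    have h1 := Nat.div_add_mod m L
    have h2 := Nat.mod_lt m hLpos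
    rw [mul_comm L] at h1
    omega
  have ha0m : a0 ≤ m := by
    have := Nat.log_lt_self 2 (x := m) (by omega)
    omega
  have hma0 : m < 2 ^ a0 := Nat.lt_pow_succ_log_self (by norm_num) m
  have hLm : L ≤ m + 1 := by
    have h1 : Nat.sqrt (m * a0) ≤ m := by
      calc Nat.sqrt (m * a0) ≤ Nat.sqrt (m * m) := Nat.sqrt_le_sqrt (Nat.mul_le_mul_left _ ha0m)
        _ = m := Nat.sqrt_eq m
    omega
  have ha : 2 * (q * L) ≤ 2 ^ (a0 + 3) := by
    have h1 : q * L ≤ m + L := by
      rw [hq, add_mul, one_mul]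
      have := Nat.div_mul_le_self m L
      omega
    have h2 : (2 : ℕ) ^ (a0 + 3) = 8 * 2 ^ a0 := by ring
    rw [h2]
    omega
  have hrm : 2 * Nat.clog 2 k ≤ m := by
    have h1 : 2 ^ (2 * Nat.clog 2 k) ≤ 2 ^ m := hn2.trans (Nat.le_pow_clog (by norm_num) n)
    exact (Nat.pow_le_pow_iff_right (by norm_num)).mp h1
  obtain ⟨P, hP, hPX⟩ := family_nat2 k n (Nat.clog 2 k) m (a0 + 3) L q rfl hk hm hLpos hqL ha
    (by omega) (by omega)
  refine ⟨P, ?_, hPX⟩
  set K := 2 * Nat.clog 2 k with hK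
  have hnum := numeric m a0 L q hm1 ha0 hL hq
  have hP' : (P.card : ℝ) ≤ ((K : ℝ) * 2 ^ K) * (14 * √((m : ℝ) * a0)) := by
    calc (P.card : ℝ) ≤ ((K * 2 ^ K * (a0 + 3 + L) + q * (K * 2 ^ K * (a0 + 3)) : ℕ) : ℝ) := by
          exact_mod_cast hP
      _ = ((K : ℝ) * 2 ^ K) * (((a0 + 3 + L) + q * (a0 + 3) : ℕ) : ℝ) := by
          push_cast; ring
      _ ≤ _ := by gcongr
  -- logarithms
  have hlog2 : (0.69 : ℝ) < Real.log 2 := by
    have := Real.log_two_gt_d9; linarith
  have hlog2' : Real.log 2 < (0.7 : ℝ) := by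
    have := Real.log_two_lt_d9; linarith
  have hn' : (16 : ℝ) ≤ n := by exact_mod_cast hn
  have hn0 : (0 : ℝ) < n := by linarith
  have hlog16 : Real.log 16 = 4 * Real.log 2 := by
    rw [show (16 : ℝ) = 2 ^ (4 : ℕ) by norm_num, Real.log_pow]
    norm_num
  have hln : 4 * Real.log 2 ≤ Real.log n := by
    rw [← hlog16]
    exact Real.log_le_log (by norm_num) hn'
  have hln0 : 0 < Real.log n := by linarith
  have hlln : 1 ≤ Real.log (Real.log n) := by
    rw [Real.le_log_iff_exp_le hln0]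
    have h1 := Real.exp_one_lt_d9
    have h2 := Real.log_two_gt_d9
    linarith
  have hmlog : (m : ℝ) ≤ 2 * Real.log n := by
    have h1 : 2 ^ (m - 1) < n := by
      rw [hm]
      exact Nat.pow_pred_clog_lt_self (by norm_num) (by omega)
    have h2 : ((2 : ℝ) ^ (m - 1)) < n := by exact_mod_cast h1
    have h3 : ((m - 1 : ℕ) : ℝ) * Real.log 2 < Real.log n := by
      rw [← Real.log_pow]
      exact Real.log_lt_log (by positivity) h2
    have h4 : ((m - 1 : ℕ) : ℝ) = m - 1 := by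
      rw [Nat.cast_sub hm1]; simp
    rw [h4] at h3
    nlinarith
  have ha0log : (a0 : ℝ) ≤ 4 * Real.log (Real.log n) := by
    have h1 : 2 ^ (Nat.log 2 m) ≤ m := Nat.pow_log_le_self 2 (by omega)
    have h2 : ((2 : ℝ) ^ (Nat.log 2 m)) ≤ 2 * Real.log n := by
      have : ((2 : ℝ) ^ (Nat.log 2 m)) ≤ m := by exact_mod_cast h1
      linarith
    have h3 : ((Nat.log 2 m : ℕ) : ℝ) * Real.log 2 ≤ Real.log 2 + Real.log (Real.log n) := by
      rw [← Real.log_pow, ← Real.log_mul (by norm_num) (by linarith)]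
      exact Real.log_le_log (by positivity) h2
    have h4 : (a0 : ℝ) = (Nat.log 2 m : ℕ) + 1 := by rw [ha0]; push_cast; rfl
    rw [h4]
    nlinarith
  have hsq : √((m : ℝ) * a0) ≤ 3 * √(Real.log n * Real.log (Real.log n)) := by
    have h9 : (3 : ℝ) = √9 := by
      rw [show (9 : ℝ) = 3 ^ 2 by norm_num]
      rw [Real.sqrt_sq (by norm_num)]
    rw [h9, ← Real.sqrt_mul (by norm_num)]
    apply Real.sqrt_le_sqrt
    calc (m : ℝ) * a0 ≤ (2 * Real.log n) * (4 * Real.log (Real.log n)) :=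
          mul_le_mul hmlog ha0log (by positivity) (by positivity)
      _ ≤ 9 * (Real.log n * Real.log (Real.log n)) := by nlinarith [mul_pos hln0 (by linarith : (0:ℝ) < Real.log (Real.log n))]
  calc (P.card : ℝ) ≤ ((K : ℝ) * 2 ^ K) * (14 * √((m : ℝ) * a0)) := hP'
    _ ≤ ((K : ℝ) * 2 ^ K) * (14 * (3 * √(Real.log n * Real.log (Real.log n)))) := by gcongr
    _ = _ := by
      rw [hK]; push_cast; ring

end Pool.Agent.H430P
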